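import Mathlib

set_option autoImplicit false

/-! Fundamental biorthogonal sequences in separable normed spaces. -/

namespace Pool.Agent.W682.CC

open Filter Topology

variable {𝕜 : Type*} [RCLike 𝕜] {X : Type*} [NormedAddCommGroup X] [NormedSpace 𝕜 X]

/-- one step of the construction -/
noncomputable def nxt (v : X) {n : ℕ} (prev : Fin n → X × StrongDual 𝕜 X) :
    X × StrongDual 𝕜 X :=
  open Classical in
  if h : v - ∑ k, (prev k).2 v • (prev k).1 = 0 then (0, 0) else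
    (v - ∑ k, (prev k).2 v • (prev k).1,
      Classical.choose (SeparatingDual.exists_eq_one (R := 𝕜) h) -
        ∑ k, Classical.choose (SeparatingDual.exists_eq_one (R := 𝕜) h) (prev k).1 • (prev k).2)

/-- the sequence of pairs (vector, functional) -/
noncomputable def sq (𝕜 : Type*) [RCLike 𝕜] {X : Type*} [NormedAddCommGroup X] [NormedSpace 𝕜 X]
    (x : ℕ → X) : ℕ → X × StrongDual 𝕜 X
  | n => nxt (x n) (fun k : Fin n => sq 𝕜 x k.1)

lemma sq_eq (x : ℕ → X) (n : ℕ) :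
    sq 𝕜 x n = nxt (x n) (fun k : Fin n => sq 𝕜 x k.1) := by
  rw [sq]

lemma sq_fst (x : ℕ → X) (n : ℕ) :
    (sq 𝕜 x n).1 = x n - ∑ k : Fin n, (sq 𝕜 x k).2 (x n) • (sq 𝕜 x k).1 := by
  rw [sq_eq]
  unfold nxt
  split_ifs with h
  · exact h.symm
  · rfl

lemma sq_inv (x : ℕ → X) (n : ℕ) :
    (∀ j < n, (sq 𝕜 x j).2 (sq 𝕜 x n).1 = 0 ∧ (sq 𝕜 x n).2 (sq 𝕜 x j).1 = 0) ∧
    (((sq 𝕜 x n).1 = 0 ∧ (sq 𝕜 x n).2 = 0) ∨ (sq 𝕜 x n).2 (sq 𝕜 x n).1 = 1) := by
  induction n using Nat.strong_induction_on with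
  | _ n ih =>
    have key : ∀ j < n, ∀ k < n, j ≠ k → (sq 𝕜 x j).2 (sq 𝕜 x k).1 = 0 := by
      intro j hj k hk hjk
      rcases lt_or_gt_of_ne hjk with h | h
      · exact ((ih k hk).1 j h).1
      · exact ((ih j hj).1 k h).2
    have hself : ∀ j < n, ∀ v : X, (sq 𝕜 x j).2 v * (sq 𝕜 x j).2 (sq 𝕜 x j).1 =
        (sq 𝕜 x j).2 v := by
      intro j hj v
      rcases (ih j hj).2 with h | h
      · rw [h.2]; simp
      · rw [h, mul_one]
    have hA : ∀ j < n, (sq 𝕜 x j).2 (sq 𝕜 x n).1 = 0 := by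
      intro j hj
      rw [sq_fst x n, map_sub, map_sum]
      rw [Finset.sum_eq_single (⟨j, hj⟩ : Fin n)]
      · rw [map_smul, smul_eq_mul, hself j hj, sub_self]
      · intro b _ hb
        rw [map_smul, key j hj b b.2 (fun h => hb (Fin.ext h.symm)), smul_zero]
      · intro h; exact absurd (Finset.mem_univ _) h
    rw [sq_eq x n]
    unfold nxt
    split_ifs with h
    · exact ⟨fun j hj => ⟨by simp, by simp⟩, Or.inl ⟨rfl, rfl⟩⟩
    · set g := Classical.choose (SeparatingDual.exists_eq_one (R := 𝕜) h) with hg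
      have hg1 : g (x n - ∑ k : Fin n, (sq 𝕜 x k).2 (x n) • (sq 𝕜 x k).1) = 1 :=
        Classical.choose_spec (SeparatingDual.exists_eq_one (R := 𝕜) h)
      rw [← sq_fst x n] at hg1
      have hB : ∀ j < n, (g - ∑ k : Fin n, g (sq 𝕜 x k).1 • (sq 𝕜 x k).2) (sq 𝕜 x j).1 = 0 := by
        intro j hj
        rw [ContinuousLinearMap.sub_apply, ContinuousLinearMap.sum_apply]
        rw [Finset.sum_eq_single (⟨j, hj⟩ : Fin n)]
        · rw [ContinuousLinearMap.smul_apply, smul_eq_mul]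
          change g (sq 𝕜 x j).1 - g (sq 𝕜 x j).1 * (sq 𝕜 x j).2 (sq 𝕜 x j).1 = 0
          rcases (ih j hj).2 with h' | h'
          · rw [h'.1]; simp
          · rw [h', mul_one, sub_self]
        · intro b _ hb
          rw [ContinuousLinearMap.smul_apply, key b b.2 j hj (fun h => hb (Fin.ext h)), smul_zero]
        · intro h; exact absurd (Finset.mem_univ _) h
      refine ⟨fun j hj => ⟨?_, hB j hj⟩, Or.inr ?_⟩
      · have := hA j hj
        rwa [sq_fst x n] at this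
      · change (g - ∑ k : Fin n, g (sq 𝕜 x k).1 • (sq 𝕜 x k).2)
          (x n - ∑ k : Fin n, (sq 𝕜 x k).2 (x n) • (sq 𝕜 x k).1) = 1
        rw [← sq_fst x n, ContinuousLinearMap.sub_apply, hg1, ContinuousLinearMap.sum_apply,
          Finset.sum_eq_zero, sub_zero]
        intro k _
        rw [ContinuousLinearMap.smul_apply, hA k k.2, smul_zero]

lemma mem_span (x : ℕ → X) (n : ℕ) :
    x n ∈ Submodule.span 𝕜 (Set.range fun k => (sq 𝕜 x k).1) := by
  have h := sq_fst (𝕜 := 𝕜) x n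
  have h2 : x n = (sq 𝕜 x n).1 + ∑ k : Fin n, (sq 𝕜 x k).2 (x n) • (sq 𝕜 x k).1 := by
    rw [h]; abel
  rw [h2]
  refine Submodule.add_mem _ (Submodule.subset_span ⟨n, rfl⟩) (Submodule.sum_mem _ fun k _ => ?_)
  exact Submodule.smul_mem _ _ (Submodule.subset_span ⟨k, rfl⟩)

/-- Every separable normed space carries a fundamental biorthogonal sequence (with zero entries
allowed). -/
theorem exists_fundamental (𝕜 : Type*) [RCLike 𝕜] (X : Type*) [NormedAddCommGroup X]
    [NormedSpace 𝕜 X] [TopologicalSpace.SeparableSpace X] :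
    ∃ (e : ℕ → X) (g : ℕ → StrongDual 𝕜 X),
      (∀ j k, j ≠ k → g j (e k) = 0) ∧ (∀ k, (e k = 0 ∧ g k = 0) ∨ g k (e k) = 1) ∧
      Dense (Submodule.span 𝕜 (Set.range e) : Set X) := by
  obtain ⟨x, hx⟩ := TopologicalSpace.exists_dense_seq X
  refine ⟨fun k => (sq 𝕜 x k).1, fun k => (sq 𝕜 x k).2, ?_, ?_, ?_⟩
  · intro j k hjk
    rcases lt_or_gt_of_ne hjk with h | h
    · exact ((sq_inv x k).1 j h).1
    · exact ((sq_inv x j).1 k h).2
  · intro k
    exact (sq_inv x k).2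
  · refine hx.mono ?_
    rintro _ ⟨n, rfl⟩
    exact mem_span x n

end Pool.Agent.W682.CC
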