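import Mathlib
import Pool.Agent.W682.CCa

set_option autoImplicit false

/-! Convex-cyclic operators whose square is not convex-cyclic, on every separable Banach space. -/

namespace Pool.Agent.W682.CC

open Filter Topology RCLike

/-- `T` is convex-cyclic: for some vector `x` the (real) convex hull of the orbit `x, T x, T² x, …`
is dense. -/
def ConvexCyclic {𝕜 : Type*} [RCLike 𝕜] {X : Type*} [NormedAddCommGroup X] [NormedSpace 𝕜 X]
    [Module ℝ X] (T : X →L[𝕜] X) : Prop :=
  ∃ x : X, Dense (convexHull ℝ (Set.range fun n : ℕ => (T ^ n) x))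

section growth

variable {𝕜 : Type*} [RCLike 𝕜]

lemma growth (ζ : 𝕜) (h4 : ζ ^ 4 = 1) (hpos : ∀ a : 𝕜, a ≠ 0 → ∃ j : ℕ, 0 < re (ζ ^ j * a))
    (lam : ℕ → ℝ) (hlam : StrictAnti lam) (hlam1 : ∀ k, 2 ≤ lam k) (hlam3 : ∀ k, lam k ≤ 3)
    (a : ℕ → 𝕜) (C : ℝ) (ha : ∀ k, ‖a k‖ ≤ C * (1 / 2) ^ k) (hne : ∃ k, a k ≠ 0) (M : ℝ) :
    ∃ n : ℕ, M < re (∑' k, ζ ^ n * (lam k : 𝕜) ^ n * a k) := by
  classical
  set k0 := Nat.find hne with hk0
  have hk0' : a k0 ≠ 0 := Nat.find_spec hne
  have hlt : ∀ k < k0, a k = 0 := fun k hk => not_not.1 (Nat.find_min hne hk)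
  have hC : 0 ≤ C := by
    have h1 := (norm_nonneg _).trans (ha k0)
    by_contra hcon
    push Not at hcon
    have : C * (1 / 2) ^ k0 < 0 := mul_neg_of_neg_of_pos hcon (by positivity)
    linarith
  have hζ : ‖ζ‖ = 1 := by
    have h1 : ‖ζ‖ ^ 4 = 1 := by rw [← norm_pow, h4, norm_one]
    exact (pow_eq_one_iff_of_nonneg (norm_nonneg _) (by norm_num)).1 h1
  obtain ⟨j, hj⟩ := hpos (a k0) hk0'
  set δ := re (ζ ^ j * a k0) with hδ
  set lam0 := lam k0
  set mu := lam (k0 + 1)
  have hmu : mu < lam0 := hlam (Nat.lt_succ_self _)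
  have hmu2 : 2 ≤ mu := hlam1 _
  -- lower bound along `n = 4 m + j`
  have hlow : ∀ m : ℕ, δ * lam0 ^ (4 * m + j) - 2 * C * mu ^ (4 * m + j) ≤
      re (∑' k, ζ ^ (4 * m + j) * (lam k : 𝕜) ^ (4 * m + j) * a k) := by
    intro m
    set n := 4 * m + j with hn
    have hnorm : ∀ k, ‖ζ ^ n * (lam k : 𝕜) ^ n * a k‖ ≤ lam k ^ n * (C * (1 / 2) ^ k) := by
      intro k
      rw [norm_mul, norm_mul, norm_pow, norm_pow, hζ, one_pow, one_mul, norm_ofReal,
        abs_of_nonneg (by linarith [hlam1 k])]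
      have : 0 ≤ lam k ^ n := pow_nonneg (by linarith [hlam1 k]) _
      exact mul_le_mul_of_nonneg_left (ha k) this
    have hgeo : Summable fun k : ℕ => (1 / 2 : ℝ) ^ k := summable_geometric_two
    have hsum : Summable fun k => ζ ^ n * (lam k : 𝕜) ^ n * a k := by
      refine Summable.of_norm_bounded (g := fun k => 3 ^ n * C * (1 / 2) ^ k) (hgeo.mul_left _) ?_
      intro k
      refine (hnorm k).trans ?_
      rw [mul_assoc]
      have h1 : lam k ^ n ≤ 3 ^ n := pow_le_pow_left₀ (by linarith [hlam1 k]) (hlam3 k) _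
      exact mul_le_mul_of_nonneg_right h1 (by positivity)
    rw [hsum.tsum_eq_add_tsum_ite k0]
    have hrest : ‖∑' k, (if k = k0 then 0 else ζ ^ n * (lam k : 𝕜) ^ n * a k)‖ ≤
        2 * C * mu ^ n := by
      have hb : ∀ k, ‖(if k = k0 then 0 else ζ ^ n * (lam k : 𝕜) ^ n * a k)‖ ≤
          C * mu ^ n * (1 / 2) ^ k := by
        intro k
        split_ifs with h
        · rw [norm_zero]
          have : 0 ≤ mu ^ n := pow_nonneg (by linarith) _
          positivity
        · rcases lt_or_gt_of_ne h with h | h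
          · rw [hlt k h, mul_zero, norm_zero]
            have : 0 ≤ mu ^ n := pow_nonneg (by linarith) _
            positivity
          · refine (hnorm k).trans ?_
            have h1 : lam k ≤ mu := hlam.antitone (Nat.succ_le_of_lt h)
            have h2 : lam k ^ n ≤ mu ^ n := pow_le_pow_left₀ (by linarith [hlam1 k]) h1 _
            calc lam k ^ n * (C * (1 / 2) ^ k) ≤ mu ^ n * (C * (1 / 2) ^ k) :=
                  mul_le_mul_of_nonneg_right h2 (by positivity)
              _ = C * mu ^ n * (1 / 2) ^ k := by ring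
      refine (tsum_of_norm_bounded ((hasSum_geometric_two).mul_left (C * mu ^ n)) hb).trans ?_
      linarith
    have h1 : re (ζ ^ n * (lam k0 : 𝕜) ^ n * a k0) = δ * lam0 ^ n := by
      have h2 : ζ ^ n = ζ ^ j := by rw [hn, pow_add, pow_mul, h4, one_pow, one_mul]
      rw [h2, mul_assoc, mul_comm ((lam k0 : 𝕜) ^ n), ← mul_assoc, ← ofReal_pow, mul_comm,
        re_ofReal_mul, mul_comm]
    rw [map_add, h1]
    have h3 := (abs_re_le_norm (∑' k, (if k = k0 then 0 else ζ ^ n * (lam k : 𝕜) ^ n * a k))).trans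
      hrest
    have h4' := (abs_le.1 h3).1
    linarith
  -- the lower bound tends to infinity
  have hlim : Tendsto (fun n : ℕ => lam0 ^ n * (δ - 2 * C * (mu / lam0) ^ n)) atTop atTop := by
    refine Tendsto.atTop_mul_pos (C := δ) hj ?_ ?_
    · exact tendsto_pow_atTop_atTop_of_one_lt (by linarith)
    · have h1 : Tendsto (fun n : ℕ => (mu / lam0) ^ n) atTop (𝓝 0) := by
        refine tendsto_pow_atTop_nhds_zero_of_lt_one
          (div_nonneg (by linarith) (by linarith)) ?_
        rw [div_lt_one (by linarith)]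
        exact hmu
      have h2 := (h1.const_mul (2 * C)).const_sub δ
      simpa using h2
  have hlim2 : Tendsto (fun m : ℕ => 4 * m + j) atTop atTop := by
    refine tendsto_atTop_atTop.2 fun b => ⟨b, fun m hm => ?_⟩
    omega
  obtain ⟨m, hm⟩ := ((hlim.comp hlim2).eventually (eventually_gt_atTop M)).exists
  refine ⟨4 * m + j, lt_of_lt_of_le ?_ (hlow m)⟩
  have h0 : lam0 ≠ 0 := by linarith
  have h5 : lam0 ^ (4 * m + j) * (δ - 2 * C * (mu / lam0) ^ (4 * m + j)) =
      δ * lam0 ^ (4 * m + j) - 2 * C * mu ^ (4 * m + j) := by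
    rw [div_pow]
    field_simp
  simp only [Function.comp_apply] at hm
  rw [h5] at hm
  exact hm

end growth

variable {𝕜 : Type*} [RCLike 𝕜] {X : Type*} [NormedAddCommGroup X] [NormedSpace 𝕜 X]

theorem main [NormedSpace ℝ X] [IsScalarTower ℝ 𝕜 X] [CompleteSpace X]
    [TopologicalSpace.SeparableSpace X] [Nontrivial X] (ζ : 𝕜) (h4 : ζ ^ 4 = 1)
    (hpos : ∀ a : 𝕜, a ≠ 0 → ∃ j : ℕ, 0 < re (ζ ^ j * a))
    (hsq : ∀ s : 𝕜, ∃ b : 𝕜, b ≠ 0 ∧ ∀ n : ℕ, 0 ≤ re (b * (ζ ^ (2 * n) * s))) :
    ∃ S : X →L[𝕜] X, ConvexCyclic S ∧ ¬ ConvexCyclic (S ^ 2) := by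
  classical
  obtain ⟨e, g, hbi, hself, hdense⟩ := exists_fundamental 𝕜 X
  have hge : ∀ k, g k (e k) • e k = e k := by
    intro k
    rcases hself k with h | h
    · rw [h.1]; simp
    · rw [h, one_smul]
  have hgg : ∀ k v, g k v * g k (e k) = g k v := by
    intro k v
    rcases hself k with h | h
    · rw [h.2]; simp
    · rw [h, mul_one]
  -- the numbers
  set P : ℕ → ℝ := fun k => ∏ i ∈ Finset.range (k + 1), (1 + ‖e i‖ * ‖g i‖) with hP
  have hP1 : ∀ k, 1 ≤ P k := by
    intro k
    have h0 : ∏ _i ∈ Finset.range (k + 1), (1 : ℝ) ≤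
        ∏ i ∈ Finset.range (k + 1), (1 + ‖e i‖ * ‖g i‖) := by
      refine Finset.prod_le_prod (fun _ _ => zero_le_one) ?_
      intro i _
      have : 0 ≤ ‖e i‖ * ‖g i‖ := by positivity
      linarith
    rw [Finset.prod_const_one] at h0
    exact h0
  have hPs : ∀ k, P (k + 1) = P k * (1 + ‖e (k + 1)‖ * ‖g (k + 1)‖) := by
    intro k
    simp only [hP]
    rw [Finset.prod_range_succ]
  have hPk : ∀ k, ‖e k‖ * ‖g k‖ ≤ P k := by
    intro k
    rcases k with _ | k
    · simp only [hP]
      simp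
    · rw [hPs]
      have h1 := hP1 k
      have h2 : 0 ≤ ‖e (k + 1)‖ * ‖g (k + 1)‖ := by positivity
      nlinarith
  set ε : ℕ → ℝ := fun k => (1 / 2) ^ k / P k with hε
  have hε0 : ∀ k, 0 < ε k := fun k => div_pos (by positivity) (by linarith [hP1 k])
  have hε1 : ∀ k, ε k ≤ 1 := by
    intro k
    rw [hε]
    refine (div_le_one (by linarith [hP1 k])).2 ?_
    exact (pow_le_one₀ (by norm_num) (by norm_num)).trans (hP1 k)
  have hεb : ∀ k, ε k * (‖e k‖ * ‖g k‖) ≤ (1 / 2) ^ k := by
    intro k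
    have h1 := hP1 k
    calc ε k * (‖e k‖ * ‖g k‖) ≤ ε k * P k := mul_le_mul_of_nonneg_left (hPk k) (hε0 k).le
      _ = (1 / 2) ^ k := by
        simp only [hε]
        field_simp
  have hεa : StrictAnti ε := by
    refine strictAnti_nat_of_succ_lt fun k => ?_
    simp only [hε]
    rw [hPs, pow_succ]
    have h1 := hP1 k
    have h2 : 0 ≤ ‖e (k + 1)‖ * ‖g (k + 1)‖ := by positivity
    rw [div_lt_div_iff₀ (by positivity) (by positivity)]
    have h3 : (0 : ℝ) < (1 / 2) ^ k := by positivity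
    have h4 : P k ≤ P k * (1 + ‖e (k + 1)‖ * ‖g (k + 1)‖) := by nlinarith
    have h5 : (1 / 2 : ℝ) ^ k * (1 / 2) * P k < (1 / 2) ^ k * P k := by
      have : 0 < (1 / 2 : ℝ) ^ k * P k := by positivity
      nlinarith
    exact h5.trans_le (mul_le_mul_of_nonneg_left h4 h3.le)
  set lam : ℕ → ℝ := fun k => 2 + ε k with hlam
  have hlama : StrictAnti lam := fun i j hij => by
    simp only [hlam]
    linarith [hεa hij]
  -- the operator
  set A : ℕ → X →L[𝕜] X := fun k => (ε k : 𝕜) • (g k).smulRight (e k) with hA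
  have hAn : ∀ k, ‖A k‖ ≤ (1 / 2) ^ k := by
    intro k
    rw [hA]
    simp only
    rw [norm_smul, norm_ofReal, abs_of_pos (hε0 k), ContinuousLinearMap.norm_smulRight_apply,
      mul_comm ‖g k‖]
    exact hεb k
  have hAs : Summable A := Summable.of_norm_bounded summable_geometric_two hAn
  set R : X →L[𝕜] X := (2 : 𝕜) • (1 : X →L[𝕜] X) + ∑' k, A k with hR
  have hAapp : ∀ v, HasSum (fun k => A k v) ((∑' k, A k) v) := fun v =>
    (hAs.hasSum).mapL (ContinuousLinearMap.apply 𝕜 X v)
  have hRe : ∀ j, R (e j) = (lam j : 𝕜) • e j := by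
    intro j
    have h1 : HasSum (fun k => A k (e j)) (A j (e j)) := by
      refine hasSum_single j fun k hk => ?_
      change (ε k : 𝕜) • (g k (e j) • e k) = 0
      rw [hbi k j hk, zero_smul, smul_zero]
    have h2 : (∑' k, A k) (e j) = A j (e j) := (hAapp (e j)).unique h1
    have h3 : A j (e j) = (ε j : 𝕜) • e j := by
      change (ε j : 𝕜) • (g j (e j) • e j) = _
      rw [hge]
    change (2 : 𝕜) • e j + (∑' k, A k) (e j) = _
    rw [h2, h3, ← add_smul]
    congr 1
    simp only [hlam]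
    push_cast
    rfl
  have hRg : ∀ j v, g j (R v) = (lam j : 𝕜) * g j v := by
    intro j v
    have h1 : HasSum (fun k => g j (A k v)) (g j ((∑' k, A k) v)) := (hAapp v).mapL (g j)
    have h2 : HasSum (fun k => g j (A k v)) (g j (A j v)) := by
      refine hasSum_single j fun k hk => ?_
      change g j ((ε k : 𝕜) • (g k v • e k)) = 0
      rw [map_smul, map_smul, hbi j k hk.symm, smul_zero, smul_zero]
    have h3 := h1.unique h2
    change g j ((2 : 𝕜) • v + (∑' k, A k) v) = _
    rw [map_add, map_smul, h3]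
    change 2 • g j v + g j ((ε j : 𝕜) • (g j v • e j)) = _
    rw [map_smul, map_smul, smul_eq_mul, smul_eq_mul, smul_eq_mul, hgg]
    simp only [hlam]
    push_cast
    ring
  set S : X →L[𝕜] X := ζ • R with hS
  have hSe : ∀ n j, (S ^ n) (e j) = (ζ ^ n * (lam j : 𝕜) ^ n) • e j := by
    intro n j
    induction n with
    | zero => simp
    | succ n ih =>
      rw [pow_succ', ContinuousLinearMap.mul_apply, ih, map_smul]
      change _ • (ζ • R (e j)) = _
      rw [hRe, smul_smul, smul_smul]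
      congr 1
      ring
  have hSg : ∀ n j v, g j ((S ^ n) v) = ζ ^ n * (lam j : 𝕜) ^ n * g j v := by
    intro n j v
    induction n with
    | zero => simp
    | succ n ih =>
      rw [pow_succ', ContinuousLinearMap.mul_apply]
      change g j (ζ • R ((S ^ n) v)) = _
      rw [map_smul, hRg, ih, smul_eq_mul]
      ring
  -- some `e i` is nonzero
  obtain ⟨i, hi⟩ : ∃ i, e i ≠ 0 := by
    by_contra hcon
    push Not at hcon
    have h1 : Submodule.span 𝕜 (Set.range e) = ⊥ := by
      rw [Submodule.span_eq_bot]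
      rintro _ ⟨k, rfl⟩
      exact hcon k
    rw [h1] at hdense
    obtain ⟨v, hv⟩ := exists_ne (0 : X)
    have h2 : v ∈ closure ((⊥ : Submodule 𝕜 X) : Set X) := hdense v
    rw [Submodule.bot_coe, closure_singleton] at h2
    exact hv h2
  have hgi : g i (e i) = 1 := by
    rcases hself i with h | h
    · exact absurd h.1 hi
    · exact h
  refine ⟨S, ?_, ?_⟩
  · -- convex-cyclicity
    set c : ℕ → ℝ := fun k => (1 / 2) ^ k / (1 + ‖e k‖) with hc
    have hc0 : ∀ k, 0 < c k := fun k => by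
      have : 0 ≤ ‖e k‖ := norm_nonneg _
      simp only [hc]
      positivity
    have hcn : ∀ k, ‖(c k : 𝕜) • e k‖ ≤ (1 / 2) ^ k := by
      intro k
      rw [norm_smul, norm_ofReal, abs_of_pos (hc0 k)]
      have h1 : 0 ≤ ‖e k‖ := norm_nonneg _
      simp only [hc]
      rw [div_mul_eq_mul_div, div_le_iff₀ (by linarith)]
      have h3 : (0 : ℝ) < (1 / 2) ^ k := by positivity
      nlinarith
    have hcs : Summable fun k => (c k : 𝕜) • e k :=
      Summable.of_norm_bounded summable_geometric_two hcn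
    refine ⟨∑' k, (c k : 𝕜) • e k, ?_⟩
    by_contra hnd
    have hex : ∃ p, p ∉ closure (convexHull ℝ (Set.range fun n : ℕ =>
        (S ^ n) (∑' k, (c k : 𝕜) • e k))) := by
      by_contra hcon
      push Not at hcon
      exact hnd hcon
    obtain ⟨p, hp⟩ := hex
    obtain ⟨f, u, hf1, hf2⟩ := RCLike.geometric_hahn_banach_closed_point (𝕜 := 𝕜)
      ((convex_convexHull ℝ _).closure) isClosed_closure hp
    have hbound : ∀ n : ℕ, re (f ((S ^ n) (∑' k, (c k : 𝕜) • e k))) < u := fun n =>
      hf1 _ (subset_closure (subset_convexHull ℝ _ ⟨n, rfl⟩))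
    have hval : ∀ n : ℕ, f ((S ^ n) (∑' k, (c k : 𝕜) • e k)) =
        ∑' k, ζ ^ n * (lam k : 𝕜) ^ n * ((c k : 𝕜) * f (e k)) := by
      intro n
      have h1 : HasSum (fun k => (S ^ n) ((c k : 𝕜) • e k)) ((S ^ n) (∑' k, (c k : 𝕜) • e k)) :=
        (hcs.hasSum).mapL (S ^ n)
      have h2 := h1.mapL f
      rw [← h2.tsum_eq]
      refine tsum_congr fun k => ?_
      rw [map_smul, map_smul, hSe, map_smul, smul_eq_mul, smul_eq_mul]
      ring
    have hfne : ∃ k, ((c k : 𝕜) * f (e k)) ≠ 0 := by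
      by_contra hcon
      push Not at hcon
      have hz : ∀ k, f (e k) = 0 := by
        intro k
        have := hcon k
        rcases mul_eq_zero.1 this with h | h
        · exact absurd (ofReal_eq_zero.1 h) (hc0 k).ne'
        · exact h
      have hf0 : ∀ v, f v = 0 := by
        have hcl : IsClosed {v : X | f v = 0} := isClosed_eq f.continuous continuous_const
        have hsub : (Submodule.span 𝕜 (Set.range e) : Set X) ⊆ {v : X | f v = 0} := by
          intro v hv
          have : Submodule.span 𝕜 (Set.range e) ≤ LinearMap.ker (f : X →ₗ[𝕜] 𝕜) := by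
            rw [Submodule.span_le]
            rintro _ ⟨k, rfl⟩
            exact hz k
          exact this hv
        intro v
        exact (hcl.closure_subset_iff.2 hsub) (hdense v)
      have h1 := hbound 0
      rw [hf0] at h1 hf2
      linarith
    obtain ⟨n, hn⟩ := growth ζ h4 hpos lam hlama
      (fun k => by simp only [hlam]; linarith [hε0 k])
      (fun k => by simp only [hlam]; linarith [hε1 k])
      (fun k => (c k : 𝕜) * f (e k)) ‖f‖ (fun k => by
        have h1 : (c k : 𝕜) * f (e k) = f ((c k : 𝕜) • e k) := by rw [map_smul, smul_eq_mul]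
        rw [h1]
        exact (f.le_opNorm _).trans (mul_le_mul_of_nonneg_left (hcn k) (norm_nonneg _)))
      hfne u
    have h2 := hbound n
    rw [hval n] at h2
    linarith
  · -- the square is not convex-cyclic
    rintro ⟨y, hy⟩
    obtain ⟨b, hb0, hb⟩ := hsq (g i y)
    have hcl : IsClosed {v : X | 0 ≤ re (b * g i v)} := by
      refine isClosed_le continuous_const ?_
      exact RCLike.continuous_re.comp (continuous_const.mul (g i).continuous)
    have hcv : Convex ℝ {v : X | 0 ≤ re (b * g i v)} := by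
      intro v hv w hw α β hα hβ _
      change 0 ≤ re (b * g i (α • v + β • w))
      have hα' : (α • v : X) = (α : 𝕜) • v := by
        rw [RCLike.real_smul_eq_coe_smul (K := 𝕜)]
      have hβ' : (β • w : X) = (β : 𝕜) • w := by
        rw [RCLike.real_smul_eq_coe_smul (K := 𝕜)]
      rw [hα', hβ', map_add, map_smul, map_smul, smul_eq_mul, smul_eq_mul, mul_add,
        mul_left_comm b, mul_left_comm b, map_add, re_ofReal_mul, re_ofReal_mul]
      have hv' : 0 ≤ re (b * g i v) := hv
      have hw' : 0 ≤ re (b * g i w) := hw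
      positivity
    have hsub : Set.range (fun n : ℕ => ((S ^ 2) ^ n) y) ⊆ {v : X | 0 ≤ re (b * g i v)} := by
      rintro _ ⟨n, rfl⟩
      change 0 ≤ re (b * g i (((S ^ 2) ^ n) y))
      rw [← pow_mul, hSg]
      have h1 : b * (ζ ^ (2 * n) * (lam i : 𝕜) ^ (2 * n) * g i y) =
          ((lam i ^ (2 * n) : ℝ) : 𝕜) * (b * (ζ ^ (2 * n) * g i y)) := by
        push_cast
        ring
      rw [h1, re_ofReal_mul]
      have h2 : 0 ≤ lam i ^ (2 * n) := by
        have : 0 < lam i := by simp only [hlam]; linarith [hε0 i]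
        positivity
      exact mul_nonneg h2 (hb n)
    have hall : ∀ v : X, 0 ≤ re (b * g i v) := fun v =>
      (hcl.closure_subset_iff.2 (convexHull_min hsub hcv)) (hy v)
    have h3 := hall ((-b⁻¹) • e i)
    rw [map_smul, hgi, smul_eq_mul, mul_one, mul_neg, mul_inv_cancel₀ hb0, map_neg, one_re] at h3
    linarith

end Pool.Agent.W682.CC
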