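import Pool.Agent.W391.BGR.Stm

set_option autoImplicit false

namespace Pool.Agent.W682.BGRREL

open Pool.Agent.W391.BGR

section grp

variable {Gp : Type*} [Group Gp] (a t : Gp)
  (h : t⁻¹ * a⁻¹ * t * a * (t⁻¹ * a * t) = a * a)

include h

theorem r40 : t * a * t⁻¹ * a = a * (t * a * t⁻¹ * (t * a * t⁻¹)) := by
  calc t * a * t⁻¹ * a = a * (t * (t⁻¹ * a⁻¹ * t * a * (t⁻¹ * a * t)) * t⁻¹) := by group
    _ = a * (t * (a * a) * t⁻¹) := by rw [h]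
    _ = _ := by group

theorem r50 : t * a⁻¹ * t⁻¹ * a = a * (t * a⁻¹ * t⁻¹ * (t * a⁻¹ * t⁻¹)) := by
  calc t * a⁻¹ * t⁻¹ * a = a * (t * (t⁻¹ * a⁻¹ * t * a * (t⁻¹ * a * t))⁻¹ * t⁻¹) := by group
    _ = a * (t * (a * a)⁻¹ * t⁻¹) := by rw [h]
    _ = _ := by group

theorem r441 : t * a * t⁻¹ * (t * a * t⁻¹ * a⁻¹) = a⁻¹ * (t * a * t⁻¹) := by
  calc t * a * t⁻¹ * (t * a * t⁻¹ * a⁻¹) = t * (a * a) * t⁻¹ * a⁻¹ := by group
    _ = t * (t⁻¹ * a⁻¹ * t * a * (t⁻¹ * a * t)) * t⁻¹ * a⁻¹ := by rw [h]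
    _ = _ := by group

theorem r51 : t * a⁻¹ * t⁻¹ * a⁻¹ = t * a * t⁻¹ * (a⁻¹ * (t * a⁻¹ * t⁻¹)) := by
  calc t * a⁻¹ * t⁻¹ * a⁻¹ = t * a * t⁻¹ * (t * (a * a)⁻¹ * t⁻¹) * a⁻¹ := by group
    _ = t * a * t⁻¹ * (t * (t⁻¹ * a⁻¹ * t * a * (t⁻¹ * a * t))⁻¹ * t⁻¹) * a⁻¹ := by rw [h]
    _ = _ := by group

theorem r30 : t⁻¹ * a⁻¹ * t * a = a * (a * (t⁻¹ * a⁻¹ * t)) := by
  calc t⁻¹ * a⁻¹ * t * a = (t⁻¹ * a⁻¹ * t * a * (t⁻¹ * a * t)) * (t⁻¹ * a⁻¹ * t) := by group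
    _ = a * a * (t⁻¹ * a⁻¹ * t) := by rw [h]
    _ = _ := by group

theorem r31 : t⁻¹ * a⁻¹ * t * a⁻¹ = a⁻¹ * (a⁻¹ * (t⁻¹ * a⁻¹ * t)) := by
  calc t⁻¹ * a⁻¹ * t * a⁻¹ =
      (t⁻¹ * a⁻¹ * t * a * (t⁻¹ * a * t))⁻¹ * (t⁻¹ * a⁻¹ * t) := by group
    _ = (a * a)⁻¹ * (t⁻¹ * a⁻¹ * t) := by rw [h]
    _ = _ := by group

theorem r200 : t⁻¹ * a * t * (a * a) = a * (t⁻¹ * a * t) := by
  calc t⁻¹ * a * t * (a * a) =
      t⁻¹ * a * t * (t⁻¹ * a⁻¹ * t * a * (t⁻¹ * a * t)) := by rw [h]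
    _ = _ := by group

theorem r21 : t⁻¹ * a * t * a⁻¹ = a⁻¹ * (t⁻¹ * a * t * a) := by
  calc t⁻¹ * a * t * a⁻¹ =
      a⁻¹ * (t⁻¹ * a * t * (t⁻¹ * a⁻¹ * t * a * (t⁻¹ * a * t))) * a⁻¹ := by group
    _ = a⁻¹ * (t⁻¹ * a * t * (a * a)) * a⁻¹ := by rw [h]
    _ = _ := by group

end grp

theorem hrel : gt⁻¹ * ga⁻¹ * gt * ga * (gt⁻¹ * ga * gt) = ga * ga := by
  have h1 : PresentedGroup.mk ({rel} : Set (FreeGroup (Fin 2))) rel = 1 :=
    PresentedGroup.one_of_mem (Set.mem_singleton _)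
  have h2 : PresentedGroup.mk ({rel} : Set (FreeGroup (Fin 2))) rel =
      (gt⁻¹ * ga⁻¹ * gt) * ga * (gt⁻¹ * ga * gt) * (ga ^ 2)⁻¹ := by
    unfold rel
    simp only [map_mul, map_inv, map_pow]
    rfl
  rw [h2, mul_inv_eq_one] at h1
  rw [h1, sq]

theorem main1 : REL := by
  intro p hp
  have H := hrel
  have e0 : phi 0 = ga := rfl
  have e1 : phi 1 = ga⁻¹ := rfl
  have e2 : phi 2 = gt⁻¹ * ga * gt := rfl
  have e3 : phi 3 = gt⁻¹ * ga⁻¹ * gt := rfl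
  have e4 : phi 4 = gt * ga * gt⁻¹ := rfl
  have e5 : phi 5 = gt * ga⁻¹ * gt⁻¹ := rfl
  have e6 : phi 6 = gt := rfl
  have e7 : phi 7 = gt⁻¹ := rfl
  generalize ga = a at *
  generalize gt = t at *
  unfold RR RA RB RT at hp
  simp only [Finset.mem_union, Finset.mem_insert, Finset.mem_singleton] at hp
  rcases hp with (hp | hp) | hp
  · rcases hp with rfl | rfl | rfl | rfl | rfl | rfl | rfl | rfl <;>
      simp only [List.map_cons, List.map_nil, List.prod_cons, List.prod_nil, mul_one, e0, e1, e2,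
        e3, e4, e5, e6, e7]
    · group
    · group
    · group
    · group
    · exact r40 a t H
    · exact r50 a t H
    · exact r441 a t H
    · exact r51 a t H
  · rcases hp with rfl | rfl | rfl | rfl | rfl | rfl <;>
      simp only [List.map_cons, List.map_nil, List.prod_cons, List.prod_nil, mul_one, e0, e1, e2,
        e3, e4, e5, e6, e7]
    · group
    · group
    · exact r30 a t H
    · exact r31 a t H
    · exact r200 a t H
    · exact r21 a t H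
  · rcases hp with rfl | rfl | rfl | rfl | rfl | rfl | rfl | rfl | rfl | rfl <;>
      simp only [List.map_cons, List.map_nil, List.prod_cons, List.prod_nil, mul_one, e0, e1, e2,
        e3, e4, e5, e6, e7] <;> group

theorem main2 : ONTO := by
  intro g
  obtain ⟨x, rfl⟩ := PresentedGroup.mk_surjective _ g
  refine FreeGroup.induction_on (C := fun x => ∃ w : Wd, (w.map phi).prod =
    PresentedGroup.mk ({rel} : Set (FreeGroup (Fin 2))) x) x ?_ ?_ ?_ ?_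
  · exact ⟨[], by simp⟩
  · intro i
    fin_cases i
    · exact ⟨[0], by simp only [List.map_cons, List.map_nil, List.prod_cons, List.prod_nil, mul_one]; rfl⟩
    · exact ⟨[6], by simp only [List.map_cons, List.map_nil, List.prod_cons, List.prod_nil, mul_one]; rfl⟩
  · intro i _
    fin_cases i
    · exact ⟨[1], by simp only [List.map_cons, List.map_nil, List.prod_cons, List.prod_nil, mul_one]; rfl⟩
    · exact ⟨[7], by simp only [List.map_cons, List.map_nil, List.prod_cons, List.prod_nil, mul_one]; rfl⟩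
  · rintro x y ⟨u, hu⟩ ⟨v, hv⟩
    exact ⟨u ++ v, by rw [List.map_append, List.prod_append, hu, hv, map_mul]⟩

end Pool.Agent.W682.BGRREL
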