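import Pool.Agent.W682.MXd

set_option autoImplicit false

namespace Pool.Agent.W682.MX

open Filter Topology Finset

/-- the space as a type -/
def XX : Type := ↥X

noncomputable instance instN : NormedAddCommGroup XX := inferInstanceAs (NormedAddCommGroup ↥X)
noncomputable instance instS : NormedSpace ℝ XX := inferInstanceAs (NormedSpace ℝ ↥X)
instance instC : CompleteSpace XX := inferInstanceAs (CompleteSpace ↥X)
instance instSep : TopologicalSpace.SeparableSpace XX :=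
  inferInstanceAs (TopologicalSpace.SeparableSpace ↥X)

noncomputable def toXX (f : X) : XX := f
noncomputable def ofXX (f : XX) : X := f

lemma TE_norm (f : E) : ‖TE f‖ ≤ 2 * ‖f‖ := by
  rw [norm_le_E _ (by positivity)]
  intro a
  rw [TE_apply, abs_mul, abs_of_pos (by norm_num : (0 : ℝ) < 2)]
  exact mul_le_mul_of_nonneg_left (abs_le_norm_E f _) (by norm_num)

/-- the operator -/
noncomputable def TT : XX →L[ℝ] XX :=
  LinearMap.mkContinuous
    { toFun := fun f => toXX (T (ofXX f))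
      map_add' := fun f g => T.map_add (ofXX f) (ofXX g)
      map_smul' := fun c f => T.map_smul c (ofXX f) } 2 (fun f => TE_norm ((ofXX f : X) : E))

lemma TT_pow (n : ℕ) (f : XX) : (TT ^ n) f = toXX ((T ^ n) (ofXX f)) := by
  induction n with
  | zero => rw [pow_zero, pow_zero]; rfl
  | succ n ih =>
    rw [pow_succ', pow_succ']
    change TT ((TT ^ n) f) = toXX (T ((T ^ n) (ofXX f)))
    rw [ih]
    rfl

theorem dense_orbit' : Dense (Set.range (fun n : ℕ => (TT ^ n) (toXX (el p nice_p)))) := by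
  simp only [TT_pow]
  exact dense_orbit

theorem dense_periodic' : Dense {f : XX | ∃ n : ℕ, 0 < n ∧ (TT ^ n) f = f} := by
  simp only [TT_pow]
  exact dense_periodic

theorem mixing' (U V : Set XX) (hU : IsOpen U) (hV : IsOpen V) (hUn : U.Nonempty)
    (hVn : V.Nonempty) : ∃ N : ℕ, ∀ n : ℕ, N ≤ n → ((⇑(TT ^ n)) ⁻¹' V ∩ U).Nonempty := by
  obtain ⟨N, hN⟩ := mixing U V hU hV hUn hVn
  refine ⟨N, fun n hn => ?_⟩
  obtain ⟨x, hx1, hx2⟩ := hN n hn
  refine ⟨toXX x, ?_, hx2⟩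
  rw [Set.mem_preimage, TT_pow]
  exact hx1

theorem fhc' (U : Set XX) (hU : IsOpen U) (hne : U.Nonempty) :
    ∃ δ : ℝ, 0 < δ ∧ ∃ N₀ : ℕ, ∀ N : ℕ, N₀ ≤ N →
      δ * (N : ℝ) ≤ (Nat.card {n : ℕ // n < N ∧ (TT ^ n) (toXX (el p nice_p)) ∈ U} : ℝ) := by
  simp only [TT_pow]
  exact fhc U hU hne

theorem no_fhcc' : ¬ ∃ X₀ : Set XX, Dense X₀ ∧ ∃ S : XX → XX, (∀ x ∈ X₀, S x ∈ X₀) ∧
    ∀ x ∈ X₀, Summable (fun n : ℕ => (TT ^ n) x) ∧
      Summable (fun n : ℕ => S^[n] x) ∧ TT (S x) = x := by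
  simp only [TT_pow]
  exact no_fhcc

theorem final :
    ¬ (∀ (𝕂 : Type) [RCLike 𝕂] (X : Type) [AddCommGroup X] [Module 𝕂 X] [UniformSpace X]
      [IsUniformAddGroup X] [CompleteSpace X] [TopologicalSpace.MetrizableSpace X]
      [TopologicalSpace.SeparableSpace X] [ContinuousSMul 𝕂 X] (T : X →L[𝕂] X),
      ((∃ x : X, Dense (Set.range (fun n : ℕ => (T ^ n) x))) ∧
        Dense {x : X | ∃ n : ℕ, 0 < n ∧ (T ^ n) x = x}) →
      (∀ U V : Set X, IsOpen U → IsOpen V → U.Nonempty → V.Nonempty →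
        ∃ N : ℕ, ∀ n : ℕ, N ≤ n → ((⇑(T ^ n)) ⁻¹' V ∩ U).Nonempty) →
      (∃ x : X, ∀ U : Set X, IsOpen U → U.Nonempty →
        ∃ δ : ℝ, 0 < δ ∧ ∃ N₀ : ℕ, ∀ N : ℕ, N₀ ≤ N →
          δ * (N : ℝ) ≤ (Nat.card {n : ℕ // n < N ∧ (T ^ n) x ∈ U} : ℝ)) →
      ∃ X₀ : Set X, Dense X₀ ∧ ∃ S : X → X, (∀ x ∈ X₀, S x ∈ X₀) ∧
        ∀ x ∈ X₀, Summable (fun n : ℕ => (T ^ n) x) ∧
          Summable (fun n : ℕ => S^[n] x) ∧ T (S x) = x) := by
  intro h
  have H := h ℝ XX TT ⟨⟨_, dense_orbit'⟩, dense_periodic'⟩ mixing' ⟨_, fhc'⟩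
  exact no_fhcc' H

end Pool.Agent.W682.MX
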