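import Mathlib

set_option autoImplicit false

/-! Numbers and the coordinate functions for a backward shift that is chaotic, mixing and
frequently hypercyclic, but does not satisfy the Frequent Hypercyclicity Criterion. -/

namespace Pool.Agent.W682.MX

open Filter Topology Finset

/-- periods -/
def P : ℕ → ℕ
  | 0 => 64
  | (j + 1) => 4096 * P j ^ 2

/-- radii -/
def R : ℕ → ℕ
  | 0 => 1
  | (j + 1) => 16 * P j

lemma P_zero : P 0 = 64 := rfl
lemma P_succ (j : ℕ) : P (j + 1) = 4096 * P j ^ 2 := rfl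
lemma R_zero : R 0 = 1 := rfl
lemma R_succ (j : ℕ) : R (j + 1) = 16 * P j := rfl

lemma P_ge (j : ℕ) : 64 ≤ P j := by
  induction j with
  | zero => exact le_rfl
  | succ j ih => rw [P_succ]; nlinarith

lemma P_pos (j : ℕ) : 0 < P j := lt_of_lt_of_le (by norm_num) (P_ge j)

lemma P_succ_ge (j : ℕ) : 262144 * P j ≤ P (j + 1) := by
  rw [P_succ]
  have := P_ge j
  nlinarith

lemma P_strictMono : StrictMono P := strictMono_nat_of_lt_succ fun j => by
  have h1 := P_succ_ge j
  have h2 := P_pos j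
  omega

lemma P_mono {i j : ℕ} (h : i ≤ j) : P i ≤ P j := P_strictMono.monotone h

lemma j_lt_P (j : ℕ) : j < P j := by
  induction j with
  | zero => exact P_pos 0
  | succ j ih =>
    have h1 := P_succ_ge j
    omega

lemma P_dvd {i j : ℕ} (h : i ≤ j) : P i ∣ P j := by
  induction j, h using Nat.le_induction with
  | base => exact dvd_rfl
  | succ j _ ih =>
    rw [P_succ]
    exact (ih.trans (dvd_pow_self _ (by norm_num))).mul_left _

lemma P_four (j : ℕ) : ∃ a, j < a ∧ P j = 4 ^ a := by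
  induction j with
  | zero => exact ⟨3, by norm_num, by rw [P_zero]; norm_num⟩
  | succ j ih =>
    obtain ⟨a, ha, h⟩ := ih
    refine ⟨6 + 2 * a, by omega, ?_⟩
    rw [P_succ, h, pow_add, pow_mul']
    norm_num

lemma R_pos (j : ℕ) : 0 < R j := by
  cases j with
  | zero => exact Nat.one_pos
  | succ j => rw [R_succ]; have := P_pos j; omega

lemma R_le (j : ℕ) : 32 * R j ≤ P j := by
  cases j with
  | zero => rw [R_zero, P_zero]; norm_num
  | succ j =>
    rw [R_succ]
    have := P_succ_ge j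
    omega

lemma R_mono {i j : ℕ} (h : i ≤ j) : R i ≤ R j := by
  induction j, h using Nat.le_induction with
  | base => exact le_rfl
  | succ j _ ih =>
    refine ih.trans ?_
    rw [R_succ]
    have := R_le j
    omega

lemma succ_le_R (j : ℕ) : j + 1 ≤ R j := by
  cases j with
  | zero => exact le_rfl
  | succ j => rw [R_succ]; have := j_lt_P j; omega

/-- the coordinate functions of a sequence -/
noncomputable def jf (x : ℕ → ℝ) (a : ℕ × ℕ) : ℝ :=
  (1 / 2 : ℝ) ^ a.1 * (match a.2 with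
    | 0 => x a.1
    | l + 1 => (∑ k ∈ range (l ^ 2), (x (a.1 + 3 * P k) - x (a.1 + P k))) / ((l : ℝ) + 1))

lemma jf_zero (x : ℕ → ℝ) (r : ℕ) : jf x (r, 0) = (1 / 2 : ℝ) ^ r * x r := rfl

lemma jf_succ (x : ℕ → ℝ) (r l : ℕ) : jf x (r, l + 1) = (1 / 2 : ℝ) ^ r *
    ((∑ k ∈ range (l ^ 2), (x (r + 3 * P k) - x (r + P k))) / ((l : ℝ) + 1)) := rfl

lemma jf_add (x y : ℕ → ℝ) (a : ℕ × ℕ) : jf (x + y) a = jf x a + jf y a := by
  obtain ⟨r, l⟩ := a
  cases l with
  | zero => rw [jf_zero, jf_zero, jf_zero, Pi.add_apply]; ring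
  | succ l =>
    rw [jf_succ, jf_succ, jf_succ, ← mul_add, ← add_div, ← sum_add_distrib]
    congr 3
    funext k
    simp only [Pi.add_apply]
    ring

lemma jf_smul (c : ℝ) (x : ℕ → ℝ) (a : ℕ × ℕ) : jf (c • x) a = c * jf x a := by
  obtain ⟨r, l⟩ := a
  cases l with
  | zero => rw [jf_zero, jf_zero, Pi.smul_apply, smul_eq_mul]; ring
  | succ l =>
    rw [jf_succ, jf_succ]
    have : ∑ k ∈ range (l ^ 2), ((c • x) (r + 3 * P k) - (c • x) (r + P k)) =
        c * ∑ k ∈ range (l ^ 2), (x (r + 3 * P k) - x (r + P k)) := by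
      rw [mul_sum]
      refine sum_congr rfl fun k _ => ?_
      simp only [Pi.smul_apply, smul_eq_mul]
      ring
    rw [this]
    ring

lemma jf_sub (x y : ℕ → ℝ) (a : ℕ × ℕ) : jf (x - y) a = jf x a - jf y a := by
  have h := jf_add x ((-1 : ℝ) • y) a
  rw [jf_smul] at h
  rw [show x - y = x + (-1 : ℝ) • y by ext; simp [sub_eq_add_neg], h]
  ring

lemma jf_shift (x : ℕ → ℝ) (n r l : ℕ) :
    (2 : ℝ) ^ n * jf x (r + n, l) = jf (fun m => x (n + m)) (r, l) := by
  have h2 : (2 : ℝ) ^ n * (1 / 2) ^ (r + n) = (1 / 2) ^ r := by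
    rw [pow_add, mul_comm, mul_assoc, ← mul_pow]
    norm_num
  cases l with
  | zero =>
    rw [jf_zero, jf_zero, ← mul_assoc, h2, add_comm r n]
  | succ l =>
    rw [jf_succ, jf_succ, ← mul_assoc, h2]
    congr 3
    funext k
    congr 2 <;> ring

/-- pointwise bound -/
lemma jf_bound (z : ℕ → ℝ) (ρ : ℕ) (C : ℝ) (hC : 0 ≤ C) (hz : ∀ s < 2 * ρ, z s = 0)
    (hk : ∀ k, 3 * P k ≤ ρ ∨ ∀ r < 6 * P k, z (r + 3 * P k) = z (r + P k))
    (hb : ∀ s, |z s| ≤ C * (s + 1)) (r l : ℕ) :
    (r < ρ → jf z (r, l) = 0) ∧ |jf z (r, l)| ≤ 4 * C * (((r : ℝ) + 1) ^ 2 * (1 / 2) ^ r) := by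
  have hzero : ∀ k, r < 3 * P k → z (r + 3 * P k) - z (r + P k) = 0 := by
    intro k hr
    by_cases h : 3 * P k ≤ ρ
    · rw [hz _ (by omega), hz _ (by omega), sub_zero]
    · rw [(hk k).resolve_left h r (by omega), sub_self]
  have hzero' : r < ρ → ∀ k, z (r + 3 * P k) - z (r + P k) = 0 := by
    intro hr k
    by_cases h : 3 * P k ≤ ρ
    · rw [hz _ (by omega), hz _ (by omega), sub_zero]
    · exact hzero k (by omega)
  have hpow : (0 : ℝ) ≤ (1 / 2) ^ r := by positivity
  cases l with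
  | zero =>
    refine ⟨fun hr => by rw [jf_zero, hz _ (by omega), mul_zero], ?_⟩
    rw [jf_zero, abs_mul, abs_of_nonneg hpow]
    have h1 := hb r
    have h2 : (0 : ℝ) ≤ r := Nat.cast_nonneg r
    calc (1 / 2 : ℝ) ^ r * |z r| ≤ (1 / 2) ^ r * (C * (r + 1)) :=
          mul_le_mul_of_nonneg_left h1 hpow
      _ ≤ (1 / 2) ^ r * (4 * C * ((r : ℝ) + 1) ^ 2) := by
          refine mul_le_mul_of_nonneg_left ?_ hpow
          have h3 : 0 ≤ C * (r + 1) := by positivity
          nlinarith [mul_nonneg h3 h2]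
      _ = _ := by ring
  | succ l =>
    refine ⟨fun hr => ?_, ?_⟩
    · rw [jf_succ, sum_eq_zero fun k _ => hzero' hr k]
      simp
    · rw [jf_succ, abs_mul, abs_of_nonneg hpow]
      have hr0 : (0 : ℝ) ≤ r := Nat.cast_nonneg r
      set B : ℝ := 2 * C * (2 * r + 1) with hB
      have hB0 : 0 ≤ B := by positivity
      have hterm : ∀ k, |z (r + 3 * P k) - z (r + P k)| ≤ if k < r then B else 0 := by
        intro k
        by_cases h : r < 3 * P k
        · rw [hzero k h, abs_zero]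
          split_ifs
          · exact hB0
          · exact le_rfl
        · push Not at h
          have h1 := j_lt_P k
          rw [if_pos (by omega)]
          have h2 : ((3 * P k : ℕ) : ℝ) ≤ r := by exact_mod_cast h
          push_cast at h2
          have h3 : (0 : ℝ) ≤ (P k : ℝ) := Nat.cast_nonneg _
          refine (abs_sub _ _).trans ?_
          have h4 := hb (r + 3 * P k)
          have h5 := hb (r + P k)
          push_cast at h4 h5
          have h6 : C * ((r : ℝ) + 3 * P k + 1) ≤ C * (2 * r + 1) :=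
            mul_le_mul_of_nonneg_left (by linarith) hC
          have h7 : C * ((r : ℝ) + P k + 1) ≤ C * (2 * r + 1) :=
            mul_le_mul_of_nonneg_left (by linarith) hC
          rw [hB]
          linarith
      have hsum : |∑ k ∈ range (l ^ 2), (z (r + 3 * P k) - z (r + P k))| ≤ r * B := by
        refine (abs_sum_le_sum_abs _ _).trans ((sum_le_sum fun k _ => hterm k).trans ?_)
        rw [← sum_filter, sum_const, nsmul_eq_mul]
        refine mul_le_mul_of_nonneg_right ?_ hB0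
        have : (filter (fun k => k < r) (range (l ^ 2))).card ≤ (range r).card :=
          card_le_card fun k hk => by
            rw [mem_filter] at hk
            exact mem_range.2 hk.2
        rw [card_range] at this
        exact_mod_cast this
      have hdiv : |(∑ k ∈ range (l ^ 2), (z (r + 3 * P k) - z (r + P k))) / ((l : ℝ) + 1)| ≤
          r * B := by
        rw [abs_div, abs_of_nonneg (by positivity : (0 : ℝ) ≤ (l : ℝ) + 1)]
        refine (div_le_self (abs_nonneg _) ?_).trans hsum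
        have : (0 : ℝ) ≤ l := Nat.cast_nonneg l
        linarith
      calc (1 / 2 : ℝ) ^ r * |(∑ k ∈ range (l ^ 2), (z (r + 3 * P k) - z (r + P k))) /
            ((l : ℝ) + 1)| ≤ (1 / 2) ^ r * (r * B) := mul_le_mul_of_nonneg_left hdiv hpow
        _ ≤ (1 / 2) ^ r * (4 * C * ((r : ℝ) + 1) ^ 2) := by
            refine mul_le_mul_of_nonneg_left ?_ hpow
            rw [hB]
            nlinarith [mul_nonneg hC hr0, mul_nonneg hC (mul_nonneg hr0 hr0)]
        _ = _ := by ring

lemma tendsto_eta : Tendsto (fun r : ℕ => ((r : ℝ) + 1) ^ 2 * (1 / 2 : ℝ) ^ r) atTop (𝓝 0) := by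
  have h0 : Tendsto (fun r : ℕ => (1 / 2 : ℝ) ^ r) atTop (𝓝 0) :=
    tendsto_pow_atTop_nhds_zero_of_lt_one (by norm_num) (by norm_num)
  have h1 : Tendsto (fun r : ℕ => (r : ℝ) ^ 1 * (1 / 2 : ℝ) ^ r) atTop (𝓝 0) :=
    tendsto_pow_const_mul_const_pow_of_abs_lt_one 1 (by rw [abs_of_pos] <;> norm_num)
  have h2 : Tendsto (fun r : ℕ => (r : ℝ) ^ 2 * (1 / 2 : ℝ) ^ r) atTop (𝓝 0) :=
    tendsto_pow_const_mul_const_pow_of_abs_lt_one 2 (by rw [abs_of_pos] <;> norm_num)
  have h3 := (h2.add (h1.const_mul 2)).add h0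
  simp only [mul_zero, add_zero] at h3
  refine h3.congr fun r => ?_
  ring

/-- uniform smallness -/
lemma jf_small (C : ℝ) (hC : 0 ≤ C) (ε : ℝ) (hε : 0 < ε) : ∃ ρ₀ : ℕ, ∀ ρ ≥ ρ₀, ∀ z : ℕ → ℝ,
    (∀ s < 2 * ρ, z s = 0) →
    (∀ k, 3 * P k ≤ ρ ∨ ∀ r < 6 * P k, z (r + 3 * P k) = z (r + P k)) →
    (∀ s, |z s| ≤ C * (s + 1)) → ∀ a, |jf z a| ≤ ε := by
  have h := (tendsto_eta.const_mul (4 * C)).eventually (gt_mem_nhds (by simpa using hε))
  obtain ⟨ρ₀, hρ⟩ := eventually_atTop.1 h
  refine ⟨ρ₀, fun ρ hρρ z h1 h2 h3 a => ?_⟩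
  obtain ⟨r, l⟩ := a
  obtain ⟨h4, h5⟩ := jf_bound z ρ C hC h1 h2 h3 r l
  by_cases hr : r < ρ
  · rw [h4 hr, abs_zero]; exact hε.le
  · exact h5.trans (hρ r (by omega)).le

/-- bound for finitely supported sequences -/
lemma jf_fin_bound (x : ℕ → ℝ) (N : ℕ) (hN : ∀ m ≥ N, x m = 0) (C : ℝ) (hC : ∀ m, |x m| ≤ C)
    (a : ℕ × ℕ) : |jf x a| ≤ (2 * N + 1) * C := by
  obtain ⟨r, l⟩ := a
  have hC0 : 0 ≤ C := (abs_nonneg _).trans (hC 0)
  have hpow : (0 : ℝ) ≤ (1 / 2) ^ r := by positivity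
  have hpow1 : (1 / 2 : ℝ) ^ r ≤ 1 := pow_le_one₀ (by norm_num) (by norm_num)
  have hN0 : (0 : ℝ) ≤ N := Nat.cast_nonneg N
  cases l with
  | zero =>
    rw [jf_zero, abs_mul, abs_of_nonneg hpow]
    calc (1 / 2 : ℝ) ^ r * |x r| ≤ 1 * C := mul_le_mul hpow1 (hC r) (abs_nonneg _) zero_le_one
      _ ≤ (2 * N + 1) * C := by nlinarith
  | succ l =>
    rw [jf_succ, abs_mul, abs_of_nonneg hpow]
    have hterm : ∀ k, |x (r + 3 * P k) - x (r + P k)| ≤ if k < N then 2 * C else 0 := by
      intro k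
      split_ifs with h
      · refine (abs_sub _ _).trans ?_
        have h4 := hC (r + 3 * P k)
        have h5 := hC (r + P k)
        linarith
      · have h1 := j_lt_P k
        rw [hN _ (by omega), hN _ (by omega), sub_zero, abs_zero]
    have hsum : |∑ k ∈ range (l ^ 2), (x (r + 3 * P k) - x (r + P k))| ≤ N * (2 * C) := by
      refine (abs_sum_le_sum_abs _ _).trans ((sum_le_sum fun k _ => hterm k).trans ?_)
      rw [← sum_filter, sum_const, nsmul_eq_mul]
      refine mul_le_mul_of_nonneg_right ?_ (by linarith)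
      have : (filter (fun k => k < N) (range (l ^ 2))).card ≤ (range N).card :=
        card_le_card fun k hk => by
          rw [mem_filter] at hk
          exact mem_range.2 hk.2
      rw [card_range] at this
      exact_mod_cast this
    have hdiv : |(∑ k ∈ range (l ^ 2), (x (r + 3 * P k) - x (r + P k))) / ((l : ℝ) + 1)| ≤
        N * (2 * C) := by
      rw [abs_div, abs_of_nonneg (by positivity : (0 : ℝ) ≤ (l : ℝ) + 1)]
      refine (div_le_self (abs_nonneg _) ?_).trans hsum
      have : (0 : ℝ) ≤ l := Nat.cast_nonneg l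
      linarith
    calc (1 / 2 : ℝ) ^ r * |(∑ k ∈ range (l ^ 2), (x (r + 3 * P k) - x (r + P k))) /
          ((l : ℝ) + 1)| ≤ 1 * (N * (2 * C)) := mul_le_mul hpow1 hdiv (abs_nonneg _) zero_le_one
      _ ≤ (2 * N + 1) * C := by nlinarith

/-- the unit vectors tend to zero -/
lemma jf_unit (ε : ℝ) (hε : 0 < ε) : ∃ N₀ : ℕ, ∀ N ≥ N₀, ∀ a,
    |jf (fun m => if m = N then (1 : ℝ) else 0) a| ≤ ε := by
  obtain ⟨r₀, hr₀⟩ := exists_pow_lt_of_lt_one (show (0 : ℝ) < ε / 2 by positivity)
    (show (1 / 2 : ℝ) < 1 by norm_num)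
  obtain ⟨l₀, hl₀⟩ := exists_nat_gt (2 / ε)
  refine ⟨r₀ + 3 * P (l₀ ^ 2) + 1, fun N hN a => ?_⟩
  obtain ⟨r, l⟩ := a
  set x : ℕ → ℝ := fun m => if m = N then (1 : ℝ) else 0 with hx
  have hpow : (0 : ℝ) ≤ (1 / 2) ^ r := by positivity
  have hpow1 : (1 / 2 : ℝ) ^ r ≤ 1 := pow_le_one₀ (by norm_num) (by norm_num)
  cases l with
  | zero =>
    rw [jf_zero]
    simp only [hx]
    split_ifs with h
    · rw [mul_one, abs_of_nonneg hpow, h]
      have : (1 / 2 : ℝ) ^ N ≤ (1 / 2) ^ r₀ :=
        pow_le_pow_of_le_one (by norm_num) (by norm_num) (by omega)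
      linarith
    · rw [mul_zero, abs_zero]; exact hε.le
  | succ l =>
    rw [jf_succ, abs_mul, abs_of_nonneg hpow]
    -- at most two nonzero terms
    have hsum1 : ∀ c : ℕ, 0 < c → |∑ k ∈ range (l ^ 2), x (r + c * P k)| ≤ 1 := by
      intro c hc
      by_cases hex : ∃ k ∈ range (l ^ 2), r + c * P k = N
      · obtain ⟨k, hk, hkN⟩ := hex
        rw [sum_eq_single k]
        · simp only [hx]
          rw [if_pos hkN, abs_one]
        · intro b _ hb
          simp only [hx]
          rw [if_neg]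
          intro hbN
          apply hb
          apply P_strictMono.injective
          have : c * P b = c * P k := by omega
          exact Nat.eq_of_mul_eq_mul_left hc this
        · intro h; exact absurd hk h
      · push Not at hex
        rw [sum_eq_zero, abs_zero]
        · exact zero_le_one
        · intro k hk
          simp only [hx]
          rw [if_neg (hex k hk)]
    have hS : |∑ k ∈ range (l ^ 2), (x (r + 3 * P k) - x (r + P k))| ≤ 2 := by
      rw [sum_sub_distrib]
      refine (abs_sub _ _).trans ?_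
      have h1 := hsum1 3 (by norm_num)
      have h2 := hsum1 1 (by norm_num)
      simp only [one_mul] at h2
      linarith
    have hl1 : (0 : ℝ) < (l : ℝ) + 1 := by positivity
    by_cases hr : r₀ ≤ r
    · have h1 : (1 / 2 : ℝ) ^ r ≤ (1 / 2) ^ r₀ :=
        pow_le_pow_of_le_one (by norm_num) (by norm_num) hr
      have h2 : |(∑ k ∈ range (l ^ 2), (x (r + 3 * P k) - x (r + P k))) / ((l : ℝ) + 1)| ≤ 2 := by
        rw [abs_div, abs_of_pos hl1]
        refine (div_le_self (abs_nonneg _) ?_).trans hS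
        have : (0 : ℝ) ≤ l := Nat.cast_nonneg l
        linarith
      calc _ ≤ (1 / 2 : ℝ) ^ r₀ * 2 := mul_le_mul h1 h2 (abs_nonneg _) (by positivity)
        _ ≤ ε := by linarith
    · push Not at hr
      by_cases hl : l ≤ l₀
      · have h0 : ∑ k ∈ range (l ^ 2), (x (r + 3 * P k) - x (r + P k)) = 0 := by
          refine sum_eq_zero fun k hk => ?_
          rw [mem_range] at hk
          have h1 : l ^ 2 ≤ l₀ ^ 2 := Nat.pow_le_pow_left hl 2
          have h2 : P k ≤ P (l₀ ^ 2) := P_mono (by omega)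
          simp only [hx]
          rw [if_neg (by omega), if_neg (by omega), sub_zero]
        rw [h0]
        simp only [zero_div, abs_zero, mul_zero]
        exact hε.le
      · push Not at hl
        have h2 : |(∑ k ∈ range (l ^ 2), (x (r + 3 * P k) - x (r + P k))) / ((l : ℝ) + 1)| ≤ ε := by
          rw [abs_div, abs_of_pos hl1, div_le_iff₀ hl1]
          refine hS.trans ?_
          have h3 : (l₀ : ℝ) ≤ l := by exact_mod_cast hl.le
          have h4 : 2 / ε < (l : ℝ) + 1 := by linarith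
          rw [div_lt_iff₀ hε] at h4
          linarith
        calc _ ≤ 1 * ε := mul_le_mul hpow1 h2 (abs_nonneg _) zero_le_one
          _ = ε := one_mul ε

end Pool.Agent.W682.MX
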