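import Pool.Agent.W682.MXa

set_option autoImplicit false

namespace Pool.Agent.W682.MX

open Filter Topology Finset

/-- the ambient space -/
abbrev E := BoundedContinuousFunction (ℕ × ℕ) ℝ

noncomputable def mkE (f : ℕ × ℕ → ℝ) (C : ℝ) (h : ∀ a, |f a| ≤ C) : E :=
  BoundedContinuousFunction.ofNormedAddCommGroupDiscrete f C h

@[simp] lemma mkE_apply (f : ℕ × ℕ → ℝ) (C : ℝ) (h : ∀ a, |f a| ≤ C) (a : ℕ × ℕ) :
    mkE f C h a = f a := rfl

lemma norm_le_E (f : E) {C : ℝ} (hC : 0 ≤ C) : ‖f‖ ≤ C ↔ ∀ a, |f a| ≤ C :=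
  BoundedContinuousFunction.norm_le hC

lemma abs_le_norm_E (f : E) (a : ℕ × ℕ) : |f a| ≤ ‖f‖ := f.norm_coe_le_norm a

/-- the shift on the ambient space -/
noncomputable def TE : E →L[ℝ] E :=
  LinearMap.mkContinuous
    { toFun := fun f => mkE (fun a => 2 * f (a.1 + 1, a.2)) (2 * ‖f‖) (fun a => by
        rw [abs_mul, abs_of_pos (by norm_num : (0 : ℝ) < 2)]
        exact mul_le_mul_of_nonneg_left (abs_le_norm_E f _) (by norm_num))
      map_add' := by
        intro f g
        ext a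
        simp [mul_add]
      map_smul' := by
        intro c f
        ext a
        simp
        ring } 2 (by
    intro f
    rw [norm_le_E _ (by positivity)]
    intro a
    simp only [LinearMap.coe_mk, AddHom.coe_mk, mkE_apply]
    rw [abs_mul, abs_of_pos (by norm_num : (0 : ℝ) < 2)]
    exact mul_le_mul_of_nonneg_left (abs_le_norm_E f _) (by norm_num))

lemma TE_apply (f : E) (a : ℕ × ℕ) : TE f a = 2 * f (a.1 + 1, a.2) := rfl

/-- the finitely supported sequences -/
def Fin0 : Submodule ℝ E where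
  carrier := {g | ∃ x : ℕ → ℝ, (∃ N, ∀ m ≥ N, x m = 0) ∧ ∀ a, g a = jf x a}
  add_mem' := by
    rintro f g ⟨x, ⟨N, hN⟩, hx⟩ ⟨y, ⟨M, hM⟩, hy⟩
    refine ⟨x + y, ⟨max N M, fun m hm => ?_⟩, fun a => ?_⟩
    · rw [Pi.add_apply, hN m (le_of_max_le_left hm), hM m (le_of_max_le_right hm), add_zero]
    · rw [jf_add, BoundedContinuousFunction.add_apply, hx, hy]
  zero_mem' := by
    refine ⟨0, ⟨0, fun _ _ => rfl⟩, fun a => ?_⟩
    have := jf_smul 0 0 a
    rw [zero_smul, zero_mul] at this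
    rw [this]; rfl
  smul_mem' := by
    rintro c f ⟨x, ⟨N, hN⟩, hx⟩
    refine ⟨c • x, ⟨N, fun m hm => ?_⟩, fun a => ?_⟩
    · rw [Pi.smul_apply, hN m hm, smul_zero]
    · rw [jf_smul, BoundedContinuousFunction.smul_apply, hx, smul_eq_mul]

/-- the space -/
noncomputable def X : Submodule ℝ E := Fin0.topologicalClosure

lemma isClosed_X : IsClosed (X : Set E) := Submodule.isClosed_topologicalClosure _

instance : CompleteSpace X := isClosed_X.completeSpace_coe

lemma Fin0_le : Fin0 ≤ X := Submodule.le_topologicalClosure _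

lemma mem_X_iff (f : E) : f ∈ X ↔ ∀ ε > 0, ∃ g ∈ Fin0, ‖f - g‖ ≤ ε := by
  have h1 : f ∈ X ↔ f ∈ closure (Fin0 : Set E) := by
    rw [← Submodule.topologicalClosure_coe]; rfl
  rw [h1, Metric.mem_closure_iff]
  constructor
  · intro h ε hε
    obtain ⟨g, hg, hd⟩ := h ε hε
    exact ⟨g, hg, by rw [← dist_eq_norm]; exact hd.le⟩
  · intro h ε hε
    obtain ⟨g, hg, hd⟩ := h (ε / 2) (by positivity)
    exact ⟨g, hg, by rw [dist_eq_norm]; linarith⟩

lemma TE_pow (n : ℕ) (f : E) (r l : ℕ) : (TE ^ n) f (r, l) = 2 ^ n * f (r + n, l) := by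
  induction n generalizing r with
  | zero => simp
  | succ n ih =>
    rw [pow_succ']
    change TE ((TE ^ n) f) (r, l) = _
    rw [TE_apply]
    change 2 * (TE ^ n) f (r + 1, l) = _
    rw [ih, pow_succ, show r + 1 + n = r + (n + 1) by ring]
    ring

lemma TE_pow_jf (n : ℕ) (f : E) (x : ℕ → ℝ) (hf : ∀ a, f a = jf x a) (a : ℕ × ℕ) :
    (TE ^ n) f a = jf (fun m => x (n + m)) a := by
  obtain ⟨r, l⟩ := a
  rw [TE_pow, hf, jf_shift]

lemma TE_mem_Fin0 (f : E) (hf : f ∈ Fin0) : TE f ∈ Fin0 := by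
  obtain ⟨x, ⟨N, hN⟩, hx⟩ := hf
  refine ⟨fun m => x (1 + m), ⟨N, fun m hm => hN _ (by omega)⟩, fun a => ?_⟩
  have := TE_pow_jf 1 f x hx a
  rwa [pow_one] at this

lemma TE_mem_X (f : E) (hf : f ∈ X) : TE f ∈ X := by
  have h1 : f ∈ closure (Fin0 : Set E) := by
    rw [← Submodule.topologicalClosure_coe]; exact hf
  have h2 : TE f ∈ closure (Fin0 : Set E) :=
    map_mem_closure TE.continuous h1 fun g hg => TE_mem_Fin0 g hg
  rw [← Submodule.topologicalClosure_coe] at h2
  exact h2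

/-- the operator -/
noncomputable def T : X →L[ℝ] X :=
  (TE.comp X.subtypeL).codRestrict X (fun f => TE_mem_X f.1 f.2)

lemma T_coe (f : X) : ((T f : X) : E) = TE f := rfl

lemma T_pow_coe (n : ℕ) (f : X) : (((T ^ n) f : X) : E) = (TE ^ n) (f : E) := by
  induction n with
  | zero => rfl
  | succ n ih =>
    rw [pow_succ', pow_succ']
    change (((T ((T ^ n) f)) : X) : E) = TE ((TE ^ n) (f : E))
    rw [T_coe, ih]

/-- head and tail of a sequence -/
def hd (x : ℕ → ℝ) (M m : ℕ) : ℝ := if m < M then x m else 0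
def tl (x : ℕ → ℝ) (M m : ℕ) : ℝ := if m < M then 0 else x m

lemma hd_add_tl (x : ℕ → ℝ) (M : ℕ) : hd x M + tl x M = x := by
  ext m
  rw [Pi.add_apply]
  unfold hd tl
  split_ifs <;> simp

/-- nice sequences -/
def Nice (x : ℕ → ℝ) : Prop :=
  (∃ C : ℝ, 0 ≤ C ∧ ∀ m, |x m| ≤ C * (m + 1)) ∧
  ∃ k₀ : ℕ, ∀ k ≥ k₀, ∀ r < 6 * P k, x (r + 3 * P k) = x (r + P k)

lemma exists_bound (x : ℕ → ℝ) (M : ℕ) : ∃ C : ℝ, 0 ≤ C ∧ ∀ m, |hd x M m| ≤ C := by
  refine ⟨∑ m ∈ range M, |x m|, sum_nonneg fun _ _ => abs_nonneg _, fun m => ?_⟩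
  unfold hd
  split_ifs with h
  · exact single_le_sum (f := fun m => |x m|) (fun _ _ => abs_nonneg _) (mem_range.2 h)
  · rw [abs_zero]; exact sum_nonneg fun _ _ => abs_nonneg _

lemma tail_small (x : ℕ → ℝ) (hx : Nice x) (ε : ℝ) (hε : 0 < ε) :
    ∃ j₀ : ℕ, ∀ j ≥ j₀, ∀ a, |jf (tl x (P j)) a| ≤ ε := by
  obtain ⟨⟨C, hC, hb⟩, k₀, hk⟩ := hx
  obtain ⟨ρ₀, hρ⟩ := jf_small C hC ε hε
  refine ⟨max k₀ (2 * ρ₀), fun j hj a => ?_⟩
  have h1 : k₀ ≤ j := le_of_max_le_left hj
  have h2 : 2 * ρ₀ ≤ j := le_of_max_le_right hj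
  have h3 := j_lt_P j
  refine hρ (P j / 2) (by omega) _ ?_ ?_ ?_ a
  · intro s hs
    unfold tl
    rw [if_pos (by omega)]
  · intro k
    by_cases hkj : k < j
    · left
      have h4 : P k ≤ P (j - 1) := P_mono (by omega)
      have h5 := P_succ_ge (j - 1)
      rw [show j - 1 + 1 = j by omega] at h5
      omega
    · right
      intro r hr
      have h6 : P j ≤ P k := P_mono (by omega)
      unfold tl
      rw [if_neg (by omega), if_neg (by omega)]
      exact hk k (by omega) r hr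
  · intro s
    unfold tl
    split_ifs
    · rw [abs_zero]; positivity
    · exact hb s

lemma exists_E (x : ℕ → ℝ) (hx : Nice x) : ∃ C, ∀ a, |jf x a| ≤ C := by
  obtain ⟨j₀, hj⟩ := tail_small x hx 1 one_pos
  obtain ⟨C, hC0, hC⟩ := exists_bound x (P j₀)
  refine ⟨(2 * (P j₀ : ℕ) + 1) * C + 1, fun a => ?_⟩
  rw [← hd_add_tl x (P j₀), jf_add]
  refine (abs_add_le _ _).trans (add_le_add ?_ (hj j₀ le_rfl a))
  refine jf_fin_bound _ _ (fun m hm => ?_) C hC a
  unfold hd
  rw [if_neg (by omega)]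

lemma mem_X (x : ℕ → ℝ) (hx : Nice x) (f : E) (hf : ∀ a, f a = jf x a) : f ∈ X := by
  rw [mem_X_iff]
  intro ε hε
  obtain ⟨j, hj⟩ := tail_small x hx ε hε
  obtain ⟨C, hC0, hC⟩ := exists_bound x (P j)
  have hz : ∀ m ≥ P j, hd x (P j) m = 0 := fun m hm => by
    unfold hd
    rw [if_neg (by omega)]
  refine ⟨mkE (jf (hd x (P j))) _ (jf_fin_bound _ _ hz C hC), ⟨_, ⟨P j, hz⟩, fun a => rfl⟩, ?_⟩
  rw [norm_le_E _ hε.le]
  intro a
  rw [BoundedContinuousFunction.sub_apply, hf, mkE_apply]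
  have : jf x a - jf (hd x (P j)) a = jf (tl x (P j)) a := by
    rw [← jf_sub]
    congr 1
    ext m
    have h := congrFun (hd_add_tl x (P j)) m
    rw [Pi.add_apply] at h
    rw [Pi.sub_apply]
    linarith
  rw [this]
  exact hj j le_rfl a

/-- the element of the space given by a nice sequence -/
noncomputable def el (x : ℕ → ℝ) (hx : Nice x) : X :=
  ⟨mkE (jf x) _ (exists_E x hx).choose_spec, mem_X x hx _ fun _ => rfl⟩

lemma el_apply (x : ℕ → ℝ) (hx : Nice x) (a : ℕ × ℕ) : (el x hx : E) a = jf x a := rfl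

lemma nice_fin (x : ℕ → ℝ) (N : ℕ) (hN : ∀ m ≥ N, x m = 0) : Nice x := by
  have hx : hd x N = x := by
    ext m
    unfold hd
    split_ifs with h
    · rfl
    · rw [hN m (by omega)]
  refine ⟨?_, N, fun k hk r _ => ?_⟩
  · obtain ⟨C, hC0, hC⟩ := exists_bound x N
    rw [hx] at hC
    refine ⟨C, hC0, fun m => (hC m).trans ?_⟩
    have : (0 : ℝ) ≤ m := Nat.cast_nonneg m
    nlinarith
  · have := j_lt_P k
    rw [hN _ (by omega), hN _ (by omega)]

/-- density of the finitely supported sequences -/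
lemma dense_fin (U : Set X) (hU : IsOpen U) (hne : U.Nonempty) :
    ∃ (x : ℕ → ℝ) (N : ℕ) (_ : ∀ m ≥ N, x m = 0) (hx : Nice x) (ε : ℝ), 0 < ε ∧
      ∀ g : X, (∀ a, |(g : E) a - jf x a| ≤ ε) → g ∈ U := by
  obtain ⟨u, hu⟩ := hne
  obtain ⟨ε, hε, hball⟩ := Metric.isOpen_iff.1 hU u hu
  obtain ⟨g, ⟨x, ⟨N, hN⟩, hx⟩, hg⟩ := (mem_X_iff (u : E)).1 u.2 (ε / 3) (by positivity)
  refine ⟨x, N, hN, nice_fin x N hN, ε / 3, by positivity, fun v hv => hball ?_⟩
  rw [Metric.mem_ball, Subtype.dist_eq, dist_eq_norm]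
  have h1 : ‖(v : E) - g‖ ≤ ε / 3 := by
    rw [norm_le_E _ (by positivity)]
    intro a
    rw [BoundedContinuousFunction.sub_apply, hx]
    exact hv a
  have h2 : (v : E) - u = ((v : E) - g) - ((u : E) - g) := by
    rw [sub_sub_sub_cancel_right]
  rw [h2]
  refine (norm_sub_le _ _).trans_lt ?_
  linarith

/-- a sequence vanishing at infinity in the norm: translates of a finitely supported sequence -/
lemma translate_small (y : ℕ → ℝ) (N : ℕ) (hN : ∀ m ≥ N, y m = 0) (ε : ℝ) (hε : 0 < ε) :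
    ∃ n₀ : ℕ, ∀ n ≥ n₀, ∀ a, |jf (fun m => if n ≤ m then y (m - n) else 0) a| ≤ ε := by
  set S : ℝ := ∑ t ∈ range N, |y t| + 1 with hS
  have hS0 : 0 < S := by
    have : 0 ≤ ∑ t ∈ range N, |y t| := sum_nonneg fun _ _ => abs_nonneg _
    linarith
  obtain ⟨n₀, hn₀⟩ := jf_unit (ε / S) (by positivity)
  refine ⟨n₀, fun n hn a => ?_⟩
  have hdec : (fun m => if n ≤ m then y (m - n) else 0) =
      ∑ t ∈ range N, y t • (fun m => if m = n + t then (1 : ℝ) else 0) := by
    ext m
    rw [Finset.sum_apply]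
    simp only [Pi.smul_apply, smul_eq_mul]
    by_cases h : n ≤ m
    · rw [if_pos h]
      by_cases h2 : m - n < N
      · rw [sum_eq_single (m - n)]
        · rw [if_pos (by omega), mul_one]
        · intro b _ hb
          rw [if_neg (by omega), mul_zero]
        · intro h3; exact absurd (mem_range.2 h2) h3
      · rw [hN _ (by omega), sum_eq_zero]
        intro t ht
        rw [mem_range] at ht
        rw [if_neg (by omega), mul_zero]
    · rw [if_neg h, sum_eq_zero]
      intro t _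
      rw [if_neg (by omega), mul_zero]
  have hjs : ∀ (s : Finset ℕ), jf (∑ t ∈ s, y t • (fun m => if m = n + t then (1 : ℝ) else 0)) a =
      ∑ t ∈ s, y t * jf (fun m => if m = n + t then (1 : ℝ) else 0) a := by
    intro s
    induction s using Finset.induction_on with
    | empty =>
      rw [sum_empty, sum_empty]
      have := jf_smul 0 0 a
      rwa [zero_smul, zero_mul] at this
    | insert b s hb ih => rw [sum_insert hb, sum_insert hb, jf_add, jf_smul, ih]
  rw [hdec, hjs]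
  refine (abs_sum_le_sum_abs _ _).trans ?_
  have h1 : ∀ t ∈ range N, |y t * jf (fun m => if m = n + t then (1 : ℝ) else 0) a| ≤
      |y t| * (ε / S) := by
    intro t _
    rw [abs_mul]
    exact mul_le_mul_of_nonneg_left (hn₀ (n + t) (by omega) a) (abs_nonneg _)
  refine (sum_le_sum h1).trans ?_
  rw [← sum_mul, mul_div_assoc', div_le_iff₀ hS0]
  have : ∑ t ∈ range N, |y t| ≤ S := by rw [hS]; linarith
  nlinarith

/-- topological mixing -/
theorem mixing (U V : Set X) (hU : IsOpen U) (hV : IsOpen V) (hUn : U.Nonempty)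
    (hVn : V.Nonempty) : ∃ N : ℕ, ∀ n : ℕ, N ≤ n → ((⇑(T ^ n)) ⁻¹' V ∩ U).Nonempty := by
  obtain ⟨x, N, hN, hx, ε, hε, hxU⟩ := dense_fin U hU hUn
  obtain ⟨y, M, hM, hy, δ, hδ, hyV⟩ := dense_fin V hV hVn
  obtain ⟨n₀, hn₀⟩ := translate_small y M hM ε hε
  refine ⟨max n₀ N, fun n hn => ?_⟩
  have h1 : n₀ ≤ n := le_of_max_le_left hn
  have h2 : N ≤ n := le_of_max_le_right hn
  set w : ℕ → ℝ := x + fun m => if n ≤ m then y (m - n) else 0 with hw
  have hwn : Nice w := nice_fin w (n + M + N) fun m hm => by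
    rw [hw, Pi.add_apply, hN m (by omega)]
    rw [if_pos (by omega), hM _ (by omega), add_zero]
  refine ⟨el w hwn, ?_, ?_⟩
  · apply hyV
    intro a
    rw [T_pow_coe, TE_pow_jf n _ w (fun a => el_apply w hwn a)]
    have : (fun m => w (n + m)) = y := by
      ext m
      rw [hw, Pi.add_apply, hN (n + m) (by omega), if_pos (by omega), zero_add]
      congr 1
      omega
    rw [this, sub_self, abs_zero]
    exact hδ.le
  · apply hxU
    intro a
    rw [el_apply, hw, jf_add, add_sub_cancel_left]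
    exact hn₀ n h1 a

/-- density of the periodic points -/
theorem dense_periodic : Dense {f : X | ∃ n : ℕ, 0 < n ∧ (T ^ n) f = f} := by
  rw [dense_iff_inter_open]
  intro U hU hne
  obtain ⟨x, N, hN, hx, ε, hε, hxU⟩ := dense_fin U hU hne
  obtain ⟨C, hC0, hC⟩ := exists_bound x N
  have hxC : ∀ m, |x m| ≤ C := by
    intro m
    have := hC m
    unfold hd at this
    split_ifs at this with h
    · exact this
    · rw [hN m (by omega)]; exact this
  obtain ⟨ρ₀, hρ⟩ := jf_small C hC0 ε hε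
  set j := N + 2 * ρ₀ with hj
  have hPj := j_lt_P j
  set w : ℕ → ℝ := fun m => x (m % P j) with hw
  have hwn : Nice w := by
    refine ⟨⟨C, hC0, fun m => (hxC _).trans ?_⟩, j, fun k hk r _ => ?_⟩
    · have : (0 : ℝ) ≤ m := Nat.cast_nonneg m
      nlinarith
    · obtain ⟨c, hc⟩ := P_dvd hk
      simp only [hw]
      congr 1
      rw [hc, show 3 * (P j * c) = P j * (3 * c) by ring, Nat.add_mul_mod_self_left,
        Nat.add_mul_mod_self_left]
  refine ⟨el w hwn, ?_, P j, P_pos j, ?_⟩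
  · apply hxU
    intro a
    rw [el_apply, ← jf_sub]
    refine hρ (P j / 2) (by omega) _ ?_ ?_ ?_ a
    · intro s hs
      rw [Pi.sub_apply]
      simp only [hw]
      rw [Nat.mod_eq_of_lt (by omega), sub_self]
    · intro k
      by_cases hkj : k < j
      · left
        have h4 : P k ≤ P (j - 1) := P_mono (by omega)
        have h5 := P_succ_ge (j - 1)
        rw [show j - 1 + 1 = j by omega] at h5
        omega
      · right
        intro r hr
        have h6 : P j ≤ P k := P_mono (by omega)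
        have h7 := hwn.2
        rw [Pi.sub_apply, Pi.sub_apply, hN (r + 3 * P k) (by omega), hN (r + P k) (by omega),
          sub_zero, sub_zero]
        obtain ⟨c, hc⟩ := P_dvd (show j ≤ k by omega)
        simp only [hw]
        congr 1
        rw [hc, show 3 * (P j * c) = P j * (3 * c) by ring, Nat.add_mul_mod_self_left,
          Nat.add_mul_mod_self_left]
    · intro s
      rw [Pi.sub_apply]
      have hs0 : (0 : ℝ) ≤ s := Nat.cast_nonneg s
      by_cases hs : s < P j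
      · simp only [hw]
        rw [Nat.mod_eq_of_lt hs, sub_self, abs_zero]
        positivity
      · rw [hN s (by omega), sub_zero]
        refine (hxC _).trans ?_
        nlinarith
  · apply Subtype.ext
    ext a
    rw [T_pow_coe, TE_pow_jf (P j) _ w (fun a => el_apply w hwn a), el_apply]
    congr 1
    ext m
    simp only [hw]
    rw [Nat.add_mod_left]

end Pool.Agent.W682.MX
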