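import Pool.Agent.W682.MXb

set_option autoImplicit false

namespace Pool.Agent.W682.MX

open Filter Topology Finset

def act (j m : ℕ) : Prop := P j ≤ m ∧ m % P j < R j

instance (j m : ℕ) : Decidable (act j m) := by unfold act; infer_instance

/-- enumeration of patterns -/
theorem exists_enum : ∃ f : ℕ → (ℕ →₀ ℚ), Function.Surjective f := exists_surjective_nat _

noncomputable def enum : ℕ → (ℕ →₀ ℚ) := exists_enum.choose

theorem enum_surj : Function.Surjective enum := exists_enum.choose_spec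

noncomputable def v (i l : ℕ) : ℝ :=
  if l < R i ∧ |((enum (Nat.unpair i).1 l : ℚ) : ℝ)| ≤ i + 1 then
    ((enum (Nat.unpair i).1 l : ℚ) : ℝ) else 0

theorem v1 (i l : ℕ) (h : R i ≤ l) : v i l = 0 := by
  unfold v
  rw [if_neg]
  rintro ⟨h1, _⟩
  omega

theorem v2 (i l : ℕ) : |v i l| ≤ i + 1 := by
  unfold v
  split_ifs with h
  · exact h.2
  · rw [abs_zero]
    positivity

theorem exists_type (q : ℕ →₀ ℚ) (i0 : ℕ) : ∃ i ≥ i0, ∀ l, v i l = q l := by
  obtain ⟨a, ha⟩ := enum_surj q
  obtain ⟨B1, hB1⟩ : ∃ B : ℕ, ∀ l, |((q l : ℚ) : ℝ)| ≤ B := by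
    have hfin : (Set.range (fun l => |((q l : ℚ) : ℝ)|)).Finite := by
      apply ((q.finite_range).image (fun r : ℚ => |(r : ℝ)|)).subset
      rintro _ ⟨l, rfl⟩
      exact ⟨q l, ⟨l, rfl⟩, rfl⟩
    obtain ⟨b, hb⟩ := hfin.bddAbove
    obtain ⟨B, hB⟩ := exists_nat_ge b
    exact ⟨B, fun l => (hb ⟨l, rfl⟩).trans hB⟩
  obtain ⟨B2, hB2⟩ : ∃ B : ℕ, ∀ l, q l ≠ 0 → l < B := by
    obtain ⟨b, hb⟩ := q.support.finite_toSet.bddAbove
    refine ⟨b + 1, fun l hl => Nat.lt_succ_of_le (hb ?_)⟩
    simpa using hl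
  set i := Nat.pair a (i0 + B1 + B2) with hi
  have hge : i0 + B1 + B2 ≤ i := Nat.right_le_pair _ _
  refine ⟨i, by omega, ?_⟩
  intro l
  unfold v
  rw [hi, Nat.unpair_pair, ← hi]
  simp only [ha]
  by_cases hl : q l = 0
  · simp [hl]
  · rw [if_pos]
    have h1 := hB2 l hl
    have h2 : i + 1 ≤ R i := succ_le_R i
    refine ⟨by omega, (hB1 l).trans ?_⟩
    have : B1 ≤ i + 1 := by omega
    exact_mod_cast this

/-- the pattern of the levels at most `k` -/
noncomputable def lev : ℕ → ℕ → ℝ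
  | 0, m => if act 0 m then v 0 (m % P 0) else 0
  | (k + 1), m => if act (k + 1) m then v (k + 1) (m % P (k + 1)) else lev k m

/-- the pattern -/
noncomputable def p (m : ℕ) : ℝ := lev m m

lemma lev_act (k m : ℕ) (h : act k m) : lev k m = v k (m % P k) := by
  cases k with
  | zero => rw [lev, if_pos h]
  | succ k => rw [lev, if_pos h]

lemma lev_congr (k m₁ m₂ : ℕ) (h : ∀ j ≤ k, (act j m₁ ↔ act j m₂) ∧ m₁ % P j = m₂ % P j) :
    lev k m₁ = lev k m₂ := by
  induction k with
  | zero =>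
    rw [lev, lev]
    obtain ⟨h1, h2⟩ := h 0 le_rfl
    by_cases h3 : act 0 m₁
    · rw [if_pos h3, if_pos (h1.1 h3), h2]
    · rw [if_neg h3, if_neg (fun h4 => h3 (h1.2 h4))]
  | succ k ih =>
    rw [lev, lev]
    obtain ⟨h1, h2⟩ := h (k + 1) le_rfl
    by_cases h3 : act (k + 1) m₁
    · rw [if_pos h3, if_pos (h1.1 h3), h2]
    · rw [if_neg h3, if_neg (fun h4 => h3 (h1.2 h4))]
      exact ih fun j hj => h j (by omega)

lemma lev_stable (k K m : ℕ) (hkK : k ≤ K) (h : ∀ j, k < j → j ≤ K → ¬ act j m) :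
    lev K m = lev k m := by
  induction K, hkK using Nat.le_induction with
  | base => rfl
  | succ K hK ih =>
    rw [lev, if_neg (h (K + 1) (by omega) le_rfl)]
    exact ih fun j h1 h2 => h j h1 (by omega)

lemma lev_abs (k m : ℕ) (B : ℝ) (hB : 0 ≤ B) (h : ∀ j ≤ k, act j m → (j : ℝ) + 1 ≤ B) :
    |lev k m| ≤ B := by
  induction k with
  | zero =>
    rw [lev]
    split_ifs with h1
    · exact (v2 _ _).trans (h 0 le_rfl h1)
    · rw [abs_zero]; exact hB
  | succ k ih =>
    rw [lev]
    split_ifs with h1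
    · exact (v2 _ _).trans (h (k + 1) le_rfl h1)
    · exact ih fun j hj => h j (by omega)

/-- if no level above `k` is active then `p` is given by the levels at most `k` -/
lemma p_eq_lev (k m : ℕ) (h : ∀ j, k < j → ¬ act j m) : p m = lev k m := by
  unfold p
  rcases le_total k m with hkm | hkm
  · exact lev_stable k m m hkm fun j h1 _ => h j h1
  · symm
    refine lev_stable m k m hkm fun j h1 _ h3 => ?_
    have h4 := j_lt_P j
    have h5 := h3.1
    omega

lemma p_abs (m : ℕ) (B : ℝ) (hB : 0 ≤ B) (h : ∀ j, act j m → (j : ℝ) + 1 ≤ B) : |p m| ≤ B :=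
  lev_abs m m B hB fun j _ hj => h j hj

/-- equality of two values of the pattern -/
lemma p_shift (k m r : ℕ) (hr : r < 6 * P k) (h : ∀ j, k < j → ∀ s, s < 9 * P k → ¬ act j (m + s)) :
    p (m + (r + 3 * P k)) = p (m + (r + P k)) := by
  rw [p_eq_lev k _ fun j hj => h j hj (r + 3 * P k) (by omega),
    p_eq_lev k _ fun j hj => h j hj (r + P k) (by omega)]
  refine lev_congr k _ _ fun j hj => ?_
  obtain ⟨c, hc⟩ := P_dvd hj
  have hmod : (m + (r + 3 * P k)) % P j = (m + (r + P k)) % P j := by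
    rw [show m + (r + 3 * P k) = m + r + P j * (3 * c) by rw [hc]; ring,
      show m + (r + P k) = m + r + P j * c by rw [hc]; ring,
      Nat.add_mul_mod_self_left, Nat.add_mul_mod_self_left]
  refine ⟨?_, hmod⟩
  unfold act
  rw [hmod]
  have h1 : P j ≤ P k := P_mono hj
  constructor
  · rintro ⟨_, h2⟩; exact ⟨by omega, h2⟩
  · rintro ⟨_, h2⟩; exact ⟨by omega, h2⟩

lemma nice_p : Nice p := by
  refine ⟨⟨1, zero_le_one, fun m => ?_⟩, 0, fun k _ r hr => ?_⟩
  · rw [one_mul]
    refine p_abs m _ (by positivity) fun j hj => ?_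
    have h1 := j_lt_P j
    have h2 := hj.1
    have : j + 1 ≤ m := by omega
    have h3 : ((j + 1 : ℕ) : ℝ) ≤ m := by exact_mod_cast this
    push_cast at h3
    linarith
  · have := p_shift k 0 r hr (fun j hj s hs hact => by
      have h1 : P (k + 1) ≤ P j := P_mono (by omega)
      have h2 := P_succ_ge k
      have h3 := hact.1
      omega)
    rwa [zero_add, zero_add] at this

/-- `n` is good for type `i` -/
def Good (i n : ℕ) : Prop := P i ∣ n ∧ P i ≤ n ∧
  ∀ j, i < j → ∀ n', P j ∣ n' → P j ≤ n' → (n + R j ≤ n' ∨ n' + R j ≤ n)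

lemma good_key {i n : ℕ} (hG : Good i n) {j l : ℕ} (hij : i < j) (h : act j (n + l)) :
    R j ≤ l := by
  obtain ⟨_, _, hfar⟩ := hG
  obtain ⟨h1, h2⟩ := h
  have hdvd : P j ∣ (n + l) - (n + l) % P j := Nat.dvd_sub_mod _
  have hge : P j ≤ (n + l) - (n + l) % P j := by
    apply Nat.le_of_dvd _ hdvd
    have := Nat.mod_lt (n + l) (P_pos j)
    omega
  rcases hfar j hij _ hdvd hge with h | h
  · omega
  · exfalso
    omega

lemma good_small (C : ℝ) (hC : 1 ≤ C) (ε : ℝ) (hε : 0 < ε) : ∃ i₀ : ℕ, ∀ i ≥ i₀, ∀ n, Good i n →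
    ∀ a, |jf (fun s => p (n + s) - v i s) a| ≤ ε := by
  obtain ⟨ρ₀, hρ⟩ := jf_small C (by linarith) ε hε
  refine ⟨2 * ρ₀ + 1, fun i hi n hG a => ?_⟩
  obtain ⟨i', rfl⟩ : ∃ i', i = i' + 1 := ⟨i - 1, by omega⟩
  have hR : R (i' + 1) = 16 * P i' := R_succ i'
  have hiP := j_lt_P i'
  have hzero : ∀ s < R (i' + 1), p (n + s) - v (i' + 1) s = 0 := by
    intro s hs
    have h1 : p (n + s) = lev (i' + 1) (n + s) := p_eq_lev _ _ fun j hj hact => by
      have h2 := good_key hG hj hact
      have h3 := R_mono hj.le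
      omega
    have hRP := R_le (i' + 1)
    have hmod : (n + s) % P (i' + 1) = s := by
      obtain ⟨c, hc⟩ := hG.1
      rw [hc, Nat.mul_add_mod, Nat.mod_eq_of_lt (by omega)]
    have hact : act (i' + 1) (n + s) := ⟨by have := hG.2.1; omega, by rw [hmod]; exact hs⟩
    rw [h1, lev_act _ _ hact, hmod, sub_self]
  refine hρ (8 * P i') (by omega) _ (fun s hs => hzero s (by omega)) ?_ ?_ a
  · intro k
    by_cases hk : k < i' + 1
    · left
      have := P_mono (show k ≤ i' by omega)
      omega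
    · right
      intro r hr
      have hRP := R_le (i' + 1)
      have hPk : P (i' + 1) ≤ P k := P_mono (by omega)
      rw [v1 _ (r + 3 * P k) (by omega), v1 _ (r + P k) (by omega), sub_zero, sub_zero]
      refine p_shift k n r hr fun j hj s hs hact => ?_
      have h1 := good_key hG (show i' + 1 < j by omega) hact
      have h2 := R_mono (show k + 1 ≤ j by omega)
      rw [R_succ] at h2
      omega
  · intro s
    have hs0 : (0 : ℝ) ≤ s := Nat.cast_nonneg s
    by_cases hs : s < R (i' + 1)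
    · rw [hzero s hs, abs_zero]
      nlinarith
    · push Not at hs
      rw [v1 _ _ hs, sub_zero]
      have h1 : |p (n + s)| ≤ s := by
        refine p_abs _ _ hs0 fun j hj => ?_
        have h2 : j + 1 ≤ s := by
          by_cases hij : i' + 1 < j
          · exact (succ_le_R j).trans (good_key hG hij hj)
          · have := succ_le_R (i' + 1)
            omega
        have h3 : ((j + 1 : ℕ) : ℝ) ≤ s := by exact_mod_cast h2
        push_cast at h3
        exact h3
      nlinarith

/-! counting -/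

theorem P_growth (i d : ℕ) : 16 * 2 ^ (d + 1) * R (i + d + 1) * P i ≤ P (i + d + 1) := by
  have h1 : 2 ^ d * P i ≤ P (i + d) := by
    induction d with
    | zero => simp
    | succ d ih =>
      have h2 := P_succ_ge (i + d)
      have h3 : i + (d + 1) = i + d + 1 := by omega
      rw [h3, pow_succ]
      have h4 := P_pos (i + d)
      calc 2 ^ d * 2 * P i = 2 * (2 ^ d * P i) := by ring
        _ ≤ 2 * P (i + d) := by omega
        _ ≤ P (i + d + 1) := by omega
  rw [R_succ, P_succ, pow_succ]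
  calc 16 * (2 ^ d * 2) * (16 * P (i + d)) * P i = 512 * P (i + d) * (2 ^ d * P i) := by ring
    _ ≤ 512 * P (i + d) * P (i + d) := Nat.mul_le_mul_left _ h1
    _ ≤ 4096 * P (i + d) ^ 2 := by nlinarith [P_pos (i + d)]

/-- excluded set -/
noncomputable def Ex (a j : ℕ) : Finset ℕ := by
  classical
  exact (Ico a (2 * a)).filter (fun n => ∃ n', P j ∣ n' ∧ P j ≤ n' ∧ ¬ (n + R j ≤ n' ∨ n' + R j ≤ n))

theorem card_Ex (a j : ℕ) : ((Ex a j).card : ℝ) ≤ 6 * a * R j / P j := by
  classical
  have hP := P_pos j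
  have hR := R_pos j
  have hRP := R_le j
  set Q := (2 * a + R j) / P j with hQ
  have hsub : Ex a j ⊆ (Icc 1 Q).biUnion (fun q => Ico (q * P j - R j) (q * P j + R j)) := by
    intro n hn
    unfold Ex at hn
    rw [mem_filter, mem_Ico] at hn
    obtain ⟨⟨h1, h2⟩, n', ⟨q, rfl⟩, h3, h4⟩ := hn
    push Not at h4
    rw [mem_biUnion]
    refine ⟨q, ?_, ?_⟩
    · rw [mem_Icc]
      constructor
      · rcases Nat.eq_zero_or_pos q with h | h
        · rw [h] at h3
          omega
        · exact h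
      · rw [hQ, Nat.le_div_iff_mul_le hP, mul_comm]
        omega
    · rw [mem_Ico, mul_comm]
      omega
  have h1 : (Ex a j).card ≤ Q * (2 * R j) := by
    refine (card_le_card hsub).trans (card_biUnion_le.trans ?_)
    refine (sum_le_card_nsmul _ _ (2 * R j) ?_).trans ?_
    · intro q _
      rw [Nat.card_Ico]
      omega
    · simp
  rcases Nat.eq_zero_or_pos Q with h | h
  · rw [h, zero_mul] at h1
    have : (Ex a j).card = 0 := by omega
    rw [this, Nat.cast_zero]
    positivity
  · have h2 : P j ≤ 2 * a + R j := by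
      have := (Nat.le_div_iff_mul_le hP).mp (hQ ▸ h)
      omega
    have h3 : R j ≤ a := by omega
    have h4 : Q * P j ≤ 3 * a := by
      have := Nat.div_mul_le_self (2 * a + R j) (P j)
      rw [← hQ] at this
      omega
    rw [le_div_iff₀ (by exact_mod_cast hP)]
    have h5 : (Ex a j).card * P j ≤ 6 * a * R j := by
      calc (Ex a j).card * P j ≤ Q * (2 * R j) * P j := by gcongr
        _ = Q * P j * (2 * R j) := by ring
        _ ≤ 3 * a * (2 * R j) := by gcongr
        _ = 6 * a * R j := by ring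
    exact_mod_cast h5

theorem Ex_empty (a j : ℕ) (h : 4 * a < j) : Ex a j = ∅ := by
  classical
  unfold Ex
  rw [filter_eq_empty_iff]
  intro n hn
  rw [mem_Ico] at hn
  push Not
  intro n' _ h1
  have := j_lt_P j
  have := R_le j
  left
  omega

noncomputable def GoodSet (i a : ℕ) : Finset ℕ := by
  classical
  exact (Ico a (2 * a)).filter (Good i)

theorem card_GoodSet (i a : ℕ) (ha : P i ≤ a) :
    (a : ℝ) / (2 * P i) - 1 ≤ ((GoodSet i a).card : ℝ) := by
  classical
  have hP := P_pos i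
  -- multiples
  have h1 : (Ico a (2 * a)).filter (fun n => P i ∣ n) ⊆ GoodSet i a ∪ (Ioc i (4 * a)).biUnion (Ex a) := by
    intro n hn
    rw [mem_filter, mem_Ico] at hn
    rw [mem_union]
    by_cases hg : Good i n
    · left
      unfold GoodSet
      rw [mem_filter, mem_Ico]
      exact ⟨hn.1, hg⟩
    · right
      unfold Good at hg
      push Not at hg
      obtain ⟨j, hij, n', h2, h3, h4⟩ := hg hn.2 (by omega)
      have hmem : n ∈ Ex a j := by
        unfold Ex
        rw [mem_filter, mem_Ico]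
        refine ⟨hn.1, n', h2, h3, ?_⟩
        push Not
        exact h4
      rw [mem_biUnion]
      refine ⟨j, ?_, hmem⟩
      rw [mem_Ioc]
      refine ⟨hij, ?_⟩
      by_contra hcon
      push Not at hcon
      rw [Ex_empty a j hcon] at hmem
      simp at hmem
  have h2 : (a : ℝ) / P i - 1 ≤ (((Ico a (2 * a)).filter (fun n => P i ∣ n)).card : ℝ) := by
    have h3 : (Ioc 0 (2 * a - 1)).filter (fun n => P i ∣ n) ⊆
        (Ico a (2 * a)).filter (fun n => P i ∣ n) ∪ (Ioc 0 (a - 1)).filter (fun n => P i ∣ n) := by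
      intro n
      simp only [mem_filter, mem_Ioc, mem_union, mem_Ico]
      omega
    have h4 := (card_le_card h3).trans (card_union_le _ _)
    rw [Nat.Ioc_filter_dvd_card_eq_div, Nat.Ioc_filter_dvd_card_eq_div] at h4
    set C := ((Ico a (2 * a)).filter (fun n => P i ∣ n)).card
    have h5 : a ≤ C * P i + P i := by
      have h6 := Nat.div_add_mod (2 * a - 1) (P i)
      have h7 := Nat.mod_lt (2 * a - 1) hP
      have h8 := Nat.div_mul_le_self (a - 1) (P i)
      have h9 : P i * ((2 * a - 1) / P i) ≤ P i * (C + (a - 1) / P i) := Nat.mul_le_mul_left _ h4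
      rw [mul_add, mul_comm (P i) C, mul_comm (P i) ((a - 1) / P i)] at h9
      omega
    have h6 : (a : ℝ) ≤ C * P i + P i := by exact_mod_cast h5
    have hP' : (0 : ℝ) < P i := by exact_mod_cast hP
    rw [sub_le_iff_le_add, div_le_iff₀ hP']
    linarith
  have h3 : (((Ico a (2 * a)).filter (fun n => P i ∣ n)).card : ℝ) ≤
      (GoodSet i a).card + ∑ j ∈ Ioc i (4 * a), ((Ex a j).card : ℝ) := by
    have h4 := (card_le_card h1).trans ((card_union_le _ _).trans (Nat.add_le_add_left card_biUnion_le _))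
    exact_mod_cast h4
  have h4 : ∑ j ∈ Ioc i (4 * a), ((Ex a j).card : ℝ) ≤ (a : ℝ) / (2 * P i) := by
    have hP' : (0 : ℝ) < P i := by exact_mod_cast hP
    have e1 : Ioc i (4 * a) = Ico (i + 1) (4 * a + 1) := by
      ext x
      simp only [mem_Ioc, mem_Ico]
      omega
    rw [e1, sum_Ico_eq_sum_range]
    have e2 : ∀ d ∈ range (4 * a + 1 - (i + 1)), ((Ex a (i + 1 + d)).card : ℝ) ≤
        (6 * a / (32 * P i)) * (1 / 2 : ℝ) ^ d := by
      intro d _
      refine (card_Ex a _).trans ?_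
      have e3 := P_growth i d
      have e4 : i + 1 + d = i + d + 1 := by omega
      rw [e4]
      have hPj : (0 : ℝ) < P (i + d + 1) := by exact_mod_cast P_pos _
      have hRj : (0 : ℝ) < R (i + d + 1) := by exact_mod_cast R_pos _
      have e5 : (16 : ℝ) * 2 ^ (d + 1) * R (i + d + 1) * P i ≤ P (i + d + 1) := by exact_mod_cast e3
      rw [div_le_iff₀ hPj]
      calc 6 * (a : ℝ) * R (i + d + 1)
          = (6 * a / (32 * P i)) * (1 / 2 : ℝ) ^ d * (16 * 2 ^ (d + 1) * R (i + d + 1) * P i) := by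
            rw [one_div, inv_pow, pow_succ]
            field_simp
            ring
        _ ≤ (6 * a / (32 * P i)) * (1 / 2 : ℝ) ^ d * P (i + d + 1) := by
            gcongr
    refine (sum_le_sum e2).trans ?_
    rw [← mul_sum]
    have e6 := sum_geometric_two_le (4 * a + 1 - (i + 1))
    calc (6 * (a : ℝ) / (32 * P i)) * ∑ d ∈ range (4 * a + 1 - (i + 1)), (1 / 2 : ℝ) ^ d
        ≤ (6 * (a : ℝ) / (32 * P i)) * 2 := by gcongr
      _ = (3 / 8) * ((a : ℝ) / P i) := by field_simp; ring
      _ ≤ (1 / 2) * ((a : ℝ) / P i) := mul_le_mul_of_nonneg_right (by norm_num) (by positivity)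
      _ = (a : ℝ) / (2 * P i) := by field_simp
  have h5 : (a : ℝ) / (2 * P i) = (a : ℝ) / P i - (a : ℝ) / (2 * P i) := by
    have hP' : (0 : ℝ) < P i := by exact_mod_cast hP
    field_simp
    ring
  linarith

/-- frequent hypercyclicity -/
theorem fhc (U : Set X) (hU : IsOpen U) (hne : U.Nonempty) :
    ∃ δ : ℝ, 0 < δ ∧ ∃ N₀ : ℕ, ∀ N : ℕ, N₀ ≤ N →
      δ * (N : ℝ) ≤ (Nat.card {n : ℕ // n < N ∧ (T ^ n) (el p nice_p) ∈ U} : ℝ) := by
  obtain ⟨x, N, hN, hx, ε, hε, hxU⟩ := dense_fin U hU hne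
  -- rational approximation
  have h2 : ∀ l : ℕ, ∃ r : ℚ, |x l - (r : ℝ)| ≤ ε / (2 * (2 * N + 1)) := by
    intro l
    have h3 : 0 < ε / (2 * (2 * (N : ℝ) + 1)) := by positivity
    obtain ⟨r, hr1, hr2⟩ := exists_rat_btwn
      (show x l - ε / (2 * (2 * N + 1)) < x l + ε / (2 * (2 * N + 1)) by linarith)
    exact ⟨r, by rw [abs_le]; constructor <;> linarith⟩
  choose r hr using h2
  let q : ℕ →₀ ℚ := Finsupp.onFinset (range N) (fun l => if l < N then r l else 0) (by
    intro l hl
    by_contra h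
    rw [mem_range] at h
    simp [h] at hl)
  have hq1 : ∀ l, l < N → q l = r l := fun l hl => by simp [q, hl]
  have hq2 : ∀ l, N ≤ l → q l = 0 := fun l hl => by simp [q, Nat.not_lt.2 hl]
  obtain ⟨i₀, hi₀⟩ := good_small 1 le_rfl (ε / 2) (by positivity)
  obtain ⟨i, hi, hiq⟩ := exists_type q i₀
  have hgood : ∀ n, Good i n → (T ^ n) (el p nice_p) ∈ U := by
    intro n hG
    apply hxU
    intro a
    rw [T_pow_coe, TE_pow_jf n _ p (fun a => el_apply p nice_p a)]
    have h1 := hi₀ i hi n hG a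
    have h2 : jf (fun m => p (n + m)) a - jf x a =
        jf (fun s => p (n + s) - v i s) a - jf (fun s => x s - v i s) a := by
      rw [← jf_sub, ← jf_sub]
      congr 1
      ext s
      simp only [Pi.sub_apply]
      ring
    rw [h2]
    have h3 : |jf (fun s => x s - v i s) a| ≤ (2 * N + 1) * (ε / (2 * (2 * N + 1))) := by
      refine jf_fin_bound _ N ?_ _ ?_ a
      · intro m hm
        rw [hN m hm, hiq, hq2 m hm]
        simp
      · intro m
        rw [hiq]
        by_cases hm : m < N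
        · rw [hq1 m hm]; exact hr m
        · rw [hN m (by omega), hq2 m (by omega)]
          simp only [Rat.cast_zero, sub_zero, abs_zero]
          positivity
    have h4 : (2 * (N : ℝ) + 1) * (ε / (2 * (2 * N + 1))) = ε / 2 := by field_simp
    rw [h4] at h3
    refine (abs_sub _ _).trans ?_
    linarith
  have hP := P_pos i
  have hP' : (0 : ℝ) < P i := by exact_mod_cast hP
  refine ⟨1 / (16 * P i), by positivity, 16 * P i + 4, fun M hM => ?_⟩
  set a := M / 2 with ha
  have haP : P i ≤ a := by omega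
  have h1 := card_GoodSet i a haP
  have hfin : Finite {n : ℕ // n < M ∧ (T ^ n) (el p nice_p) ∈ U} :=
    ((Set.finite_lt_nat M).subset fun n (hn : n < M ∧ (T ^ n) (el p nice_p) ∈ U) => hn.1).to_subtype
  have h2 : (GoodSet i a).card ≤ Nat.card {n : ℕ // n < M ∧ (T ^ n) (el p nice_p) ∈ U} := by
    have hsub : (GoodSet i a : Set ℕ) ⊆ {n : ℕ | n < M ∧ (T ^ n) (el p nice_p) ∈ U} := by
      classical
      intro n hn
      have hn' : n ∈ GoodSet i a := hn
      unfold GoodSet at hn'
      rw [mem_filter, mem_Ico] at hn'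
      exact ⟨by omega, hgood n hn'.2⟩
    have h3 := Set.ncard_le_ncard hsub ((Set.finite_lt_nat M).subset fun n hn => hn.1)
    rw [Set.ncard_coe_finset] at h3
    exact h3
  have h3 : ((GoodSet i a).card : ℝ) ≤
      (Nat.card {n : ℕ // n < M ∧ (T ^ n) (el p nice_p) ∈ U} : ℝ) := by exact_mod_cast h2
  refine le_trans ?_ (h1.trans h3)
  have h4 : (M : ℝ) ≤ 2 * a + 1 := by
    have : M ≤ 2 * a + 1 := by omega
    exact_mod_cast this
  have h5 : (16 : ℝ) * P i + 4 ≤ M := by exact_mod_cast hM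
  rw [one_div, inv_mul_eq_div, le_sub_iff_add_le, div_add' _ _ _ (by positivity),
    div_le_div_iff₀ (by positivity) (by positivity)]
  nlinarith

end Pool.Agent.W682.MX
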