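import Pool.Agent.W682.MXc

set_option autoImplicit false

namespace Pool.Agent.W682.MX

open Filter Topology Finset

/-- evaluation -/
noncomputable def ev (a : ℕ × ℕ) : E →L[ℝ] ℝ :=
  LinearMap.mkContinuous
    { toFun := fun f => f a
      map_add' := fun _ _ => rfl
      map_smul' := fun _ _ => rfl } 1 (fun f => by
        rw [one_mul]
        exact abs_le_norm_E f a)

lemma ev_apply (a : ℕ × ℕ) (f : E) : ev a f = f a := rfl

/-- the coordinates -/
noncomputable def cd (r : ℕ) : E →L[ℝ] ℝ := (2 : ℝ) ^ r • ev (r, 0)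

lemma cd_apply (r : ℕ) (f : E) : cd r f = 2 ^ r * f (r, 0) := rfl

lemma cd_jf (r : ℕ) (f : E) (x : ℕ → ℝ) (hf : ∀ a, f a = jf x a) : cd r f = x r := by
  rw [cd_apply, hf, jf_zero, ← mul_assoc, ← mul_pow]
  norm_num

lemma cd_TE_pow (n r : ℕ) (f : E) : cd r ((TE ^ n) f) = cd (r + n) f := by
  rw [cd_apply, TE_pow, cd_apply, pow_add]
  ring

lemma cons (f : E) (hf : f ∈ X) (r l : ℕ) : ((l : ℝ) + 1) * 2 ^ r * f (r, l + 1) =
    ∑ k ∈ range (l ^ 2), (cd (r + 3 * P k) f - cd (r + P k) f) := by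
  have hcl : IsClosed {f : E | ((l : ℝ) + 1) * 2 ^ r * f (r, l + 1) =
      ∑ k ∈ range (l ^ 2), (cd (r + 3 * P k) f - cd (r + P k) f)} := by
    refine isClosed_eq ?_ ?_
    · exact continuous_const.mul (ev (r, l + 1)).continuous
    · exact continuous_finsetSum _ fun k _ => (cd _).continuous.sub (cd _).continuous
  have hsub : (Fin0 : Set E) ⊆ {f : E | ((l : ℝ) + 1) * 2 ^ r * f (r, l + 1) =
      ∑ k ∈ range (l ^ 2), (cd (r + 3 * P k) f - cd (r + P k) f)} := by
    rintro g ⟨x, _, hx⟩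
    change ((l : ℝ) + 1) * 2 ^ r * g (r, l + 1) = _
    rw [hx, jf_succ]
    have h1 : (2 : ℝ) ^ r * (1 / 2) ^ r = 1 := by rw [← mul_pow]; norm_num
    have h2 : ((l : ℝ) + 1) ≠ 0 := by positivity
    have h3 : ∑ k ∈ range (l ^ 2), (cd (r + 3 * P k) g - cd (r + P k) g) =
        ∑ k ∈ range (l ^ 2), (x (r + 3 * P k) - x (r + P k)) := by
      refine sum_congr rfl fun k _ => ?_
      rw [cd_jf _ _ x hx, cd_jf _ _ x hx]
    rw [h3]
    generalize ∑ k ∈ range (l ^ 2), (x (r + 3 * P k) - x (r + P k)) = s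
    calc ((l : ℝ) + 1) * 2 ^ r * ((1 / 2) ^ r * (s / ((l : ℝ) + 1)))
        = (2 ^ r * (1 / 2) ^ r) * (((l : ℝ) + 1) * (s / ((l : ℝ) + 1))) := by ring
      _ = s := by rw [h1, one_mul, mul_div_cancel₀ _ h2]
  have h1 : f ∈ closure (Fin0 : Set E) := by
    rw [← Submodule.topologicalClosure_coe]; exact hf
  exact (hcl.closure_subset_iff.2 hsub) h1

/-- vectors of period `3 q`, `q` a power of four, have period `q` -/
lemma period_three (f : E) (hf : f ∈ X) (m : ℕ) (hper : ∀ r, cd (r + 3 * 4 ^ m) f = cd r f)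
    (r : ℕ) : cd (r + 4 ^ m) f = cd r f := by
  set q := 4 ^ m with hq
  have hper' : ∀ c r, cd (r + 3 * q * c) f = cd r f := by
    intro c
    induction c with
    | zero => intro r; simp
    | succ c ih =>
      intro r
      rw [show r + 3 * q * (c + 1) = (r + 3 * q * c) + 3 * q by ring, hper, ih]
  have hfour : ∀ b : ℕ, ∃ c, 4 ^ b = 3 * c + 1 := by
    intro b
    induction b with
    | zero => exact ⟨0, by norm_num⟩
    | succ b ih =>
      obtain ⟨c, hc⟩ := ih
      exact ⟨4 * c + 1, by rw [pow_succ, hc]; ring⟩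
  set D := cd r f - cd (r + q) f with hD
  have hterm : ∀ k, m ≤ k → cd (r + 3 * P k) f - cd (r + P k) f = D := by
    intro k hk
    obtain ⟨a, ha, haP⟩ := P_four k
    obtain ⟨c, hc⟩ := hfour (a - m)
    have h1 : P k = q * (3 * c + 1) := by
      rw [haP, ← hc, hq, ← pow_add]
      congr 1
      omega
    rw [show r + 3 * P k = r + 3 * q * (3 * c + 1) by rw [h1]; ring,
      show r + P k = (r + q) + 3 * q * c by rw [h1]; ring, hper', hper']
  by_contra hne
  have hD0 : D ≠ 0 := fun h => hne (by rw [hD] at h; linarith)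
  have hDp : 0 < |D| := abs_pos.2 hD0
  set A := ∑ k ∈ range m, |cd (r + 3 * P k) f - cd (r + P k) f| with hA
  set B := 2 ^ r * ‖f‖ with hB
  have hbound : ∀ l : ℕ, m ≤ l ^ 2 → ((l : ℝ) ^ 2 - m) * |D| ≤ B * (l + 1) + A := by
    intro l hl
    have h1 := cons f hf r l
    have h2 : ∑ k ∈ range (l ^ 2), (cd (r + 3 * P k) f - cd (r + P k) f) =
        ∑ k ∈ range m, (cd (r + 3 * P k) f - cd (r + P k) f) + ((l : ℝ) ^ 2 - m) * D := by
      rw [← sum_range_add_sum_Ico _ hl]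
      congr 1
      rw [sum_congr rfl (fun k hk => hterm k (mem_Ico.1 hk).1), sum_const, Nat.card_Ico,
        nsmul_eq_mul, Nat.cast_sub hl]
      push_cast
      rfl
    have h3 : |((l : ℝ) + 1) * 2 ^ r * f (r, l + 1)| ≤ B * (l + 1) := by
      rw [abs_mul, abs_of_nonneg (by positivity : (0 : ℝ) ≤ ((l : ℝ) + 1) * 2 ^ r), hB]
      have := abs_le_norm_E f (r, l + 1)
      calc ((l : ℝ) + 1) * 2 ^ r * |f (r, l + 1)| ≤ ((l : ℝ) + 1) * 2 ^ r * ‖f‖ :=
            mul_le_mul_of_nonneg_left this (by positivity)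
        _ = _ := by ring
    rw [h1, h2] at h3
    have h4 : |∑ k ∈ range m, (cd (r + 3 * P k) f - cd (r + P k) f)| ≤ A :=
      abs_sum_le_sum_abs _ _
    have h5 : (0 : ℝ) ≤ (l : ℝ) ^ 2 - m := by
      have : ((m : ℕ) : ℝ) ≤ ((l ^ 2 : ℕ) : ℝ) := by exact_mod_cast hl
      push_cast at this
      linarith
    rw [← abs_of_nonneg h5, ← abs_mul]
    calc |((l : ℝ) ^ 2 - m) * D| = |(∑ k ∈ range m, (cd (r + 3 * P k) f - cd (r + P k) f) +
          ((l : ℝ) ^ 2 - m) * D) - ∑ k ∈ range m, (cd (r + 3 * P k) f - cd (r + P k) f)| := by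
          congr 1; ring
      _ ≤ _ := (abs_sub _ _).trans (add_le_add h3 h4)
  have hA0 : 0 ≤ A := sum_nonneg fun _ _ => abs_nonneg _
  have hB0 : 0 ≤ B := by positivity
  obtain ⟨L, hL⟩ := exists_nat_gt ((2 * B + A) / |D| + m + 1)
  have hL1 : (1 : ℝ) ≤ L := by
    have : 0 ≤ (2 * B + A) / |D| := by positivity
    have : (0 : ℝ) ≤ m := Nat.cast_nonneg m
    linarith
  have hmL : (m : ℝ) ≤ L := by
    have : 0 ≤ (2 * B + A) / |D| := by positivity
    linarith
  have hmL' : m ≤ L ^ 2 := by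
    have h1 : m ≤ L := by exact_mod_cast hmL
    have h2 : 1 ≤ L := by exact_mod_cast hL1
    nlinarith
  have h1 := hbound L hmL'
  have h2 : (2 * B + A) + (m + 1) * |D| < L * |D| := by
    have h3 : (2 * B + A) / |D| + m + 1 < L := hL
    have h4 := mul_lt_mul_of_pos_right h3 hDp
    have h5 : ((2 * B + A) / |D| + m + 1) * |D| = (2 * B + A) + (m + 1) * |D| := by
      field_simp
      ring
    linarith
  -- `(L ^ 2 - m) |D| ≤ B (L + 1) + A ≤ L (2 B + A) < L (L - m - 1) |D|`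
  have h6 : B * (L + 1) + A ≤ L * (2 * B + A) := by nlinarith
  have h7 : (L : ℝ) * ((2 * B + A) + (m + 1) * |D|) < L * (L * |D|) :=
    mul_lt_mul_of_pos_left h2 (by linarith)
  have hm0 : (0 : ℝ) ≤ m := Nat.cast_nonneg m
  nlinarith [mul_nonneg hm0 hDp.le, mul_nonneg (mul_nonneg hm0 hDp.le) (by linarith : (0 : ℝ) ≤ L - 1)]

/-- tails of an absolutely convergent series -/
lemma tail_le (a : ℕ → ℝ) (ha : Summable a) (g : ℕ → ℕ) (hg : Function.Injective g) (q : ℕ)
    (hq : ∀ n, q ≤ g n) : |∑' n, a (g n)| ≤ ∑' n, |a (n + q)| := by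
  have ha' : Summable fun n => |a n| := ha.abs
  have hs : Summable fun n => |a (g n)| := ha'.comp_injective hg
  have h1 : |∑' n, a (g n)| ≤ ∑' n, |a (g n)| := by
    have := norm_tsum_le_tsum_norm (f := fun n => a (g n)) hs
    exact this
  refine h1.trans ?_
  have hs2 : Summable fun n => |a (n + q)| := (summable_nat_add_iff q).2 ha'
  have hinj : Function.Injective fun n => g n - q := by
    intro n m h
    apply hg
    have h1 := hq n
    have h2 := hq m
    simp only at h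
    omega
  have h2 := tsum_comp_le_tsum_of_inj hs2 (fun n => abs_nonneg _) hinj
  refine le_trans (le_of_eq ?_) h2
  refine tsum_congr fun n => ?_
  simp only [Function.comp_apply]
  rw [Nat.sub_add_cancel (hq n)]

/-- the coordinate functionals on the space -/
noncomputable def φ (r : ℕ) : X →L[ℝ] ℝ := (cd r).comp X.subtypeL

lemma φ_apply (r : ℕ) (f : X) : φ r f = cd r (f : E) := rfl

lemma φ_T_pow (r n : ℕ) (f : X) : φ r ((T ^ n) f) = φ (r + n) f := by
  rw [φ_apply, T_pow_coe, cd_TE_pow, φ_apply]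

/-- two-sided orbits which are unconditionally summable vanish -/
lemma zero_abstract {F : Type*} [NormedAddCommGroup F] [NormedSpace ℝ F] [CompleteSpace F]
    (T : F →L[ℝ] F) (φ : ℕ → F →L[ℝ] ℝ) (hφ : ∀ r n f, φ r ((T ^ n) f) = φ (r + n) f)
    (H : ∀ f m, (∀ r, φ (r + 3 * 4 ^ m) f = φ r f) → ∀ r, φ (r + 4 ^ m) f = φ r f)
    (u w : ℕ → F) (hu : Summable u) (hw : Summable w) (h0 : u 0 = w 0)
    (hTu : ∀ k n, (T ^ k) (u n) = u (n + k)) (hTw : ∀ k n, (T ^ k) (w (n + k)) = w n) (r : ℕ) :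
    φ r (u 0) = 0 := by
  obtain ⟨a, ha⟩ : ∃ a : ℕ → ℝ, a = fun n => φ r (u n) := ⟨_, rfl⟩
  obtain ⟨b, hb⟩ : ∃ b : ℕ → ℝ, b = fun n => φ r (w n) := ⟨_, rfl⟩
  have has : Summable a := by rw [ha]; exact (φ r).summable hu
  have hbs : Summable b := by rw [hb]; exact (φ r).summable hw
  -- the estimate
  have hest : ∀ m : ℕ, |a 0| ≤ 2 * (∑' n, |a (n + 4 ^ m)|) + 2 * (∑' n, |b (n + 4 ^ m)|) := by
    intro m
    have Hm := fun f => H f m
    have hq0' : 0 < 4 ^ m := by positivity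
    obtain ⟨q, hq⟩ : ∃ q, q = 4 ^ m := ⟨_, rfl⟩
    rw [← hq] at Hm hq0' ⊢
    have hq0 : 0 < 3 * q := by omega
    have inj1 : Function.Injective fun n : ℕ => 3 * q * n := fun u v huv =>
      Nat.eq_of_mul_eq_mul_left hq0 huv
    have inj2 : Function.Injective fun n : ℕ => 3 * q * (n + 1) := fun u v huv => by
      have := Nat.eq_of_mul_eq_mul_left hq0 huv
      omega
    have inj3 : Function.Injective fun n : ℕ => 3 * q * n + q := fun u v huv =>
      Nat.eq_of_mul_eq_mul_left hq0 (Nat.add_right_cancel huv)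
    have inj4 : Function.Injective fun n : ℕ => 3 * q * n + 2 * q := fun u v huv =>
      Nat.eq_of_mul_eq_mul_left hq0 (Nat.add_right_cancel huv)
    have s1 : Summable fun n : ℕ => u (3 * q * n) := hu.comp_injective inj1
    have s2 : Summable fun n : ℕ => w (3 * q * (n + 1)) := hw.comp_injective inj2
    have s3 : Summable fun n : ℕ => w (3 * q * n) := hw.comp_injective inj1
    obtain ⟨y, hy⟩ : ∃ y : F, y = (∑' n : ℕ, u (3 * q * n)) + ∑' n : ℕ, w (3 * q * (n + 1)) :=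
      ⟨_, rfl⟩
    -- `y` is periodic
    have hper : (T ^ (3 * q)) y = y := by
      rw [hy, map_add, (T ^ (3 * q)).map_tsum s1, (T ^ (3 * q)).map_tsum s2]
      have e1 : ∀ n : ℕ, (T ^ (3 * q)) (u (3 * q * n)) = u (3 * q * (n + 1)) := by
        intro n
        rw [hTu, show 3 * q * n + 3 * q = 3 * q * (n + 1) by ring]
      have e2 : ∀ n : ℕ, (T ^ (3 * q)) (w (3 * q * (n + 1))) = w (3 * q * n) := by
        intro n
        rw [show 3 * q * (n + 1) = 3 * q * n + 3 * q by ring, hTw]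
      simp only [e1, e2]
      rw [s1.tsum_eq_zero_add, s3.tsum_eq_zero_add, mul_zero, h0]
      abel
    have hφper : ∀ s, φ (s + 3 * q) y = φ s y := by
      intro s
      have := hφ s (3 * q) y
      rw [hper] at this
      exact this.symm
    have hφq : φ (r + q) y = φ r y := Hm y hφper r
    rw [← hφ] at hφq
    -- compute both sides
    have c1 : φ r y = a 0 + ∑' n : ℕ, a (3 * q * (n + 1)) + ∑' n : ℕ, b (3 * q * (n + 1)) := by
      rw [hy, map_add, (φ r).map_tsum s1, (φ r).map_tsum s2]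
      have s4 : Summable fun n : ℕ => a (3 * q * n) := has.comp_injective inj1
      have e3 : (∑' n : ℕ, (φ r) (u (3 * q * n))) = ∑' n : ℕ, a (3 * q * n) := by rw [ha]
      have e4 : (∑' n : ℕ, (φ r) (w (3 * q * (n + 1)))) = ∑' n : ℕ, b (3 * q * (n + 1)) := by
        rw [hb]
      rw [e3, e4, s4.tsum_eq_zero_add, mul_zero]
    have c2 : φ r ((T ^ q) y) = ∑' n : ℕ, a (3 * q * n + q) + ∑' n : ℕ, b (3 * q * n + 2 * q) := by
      have s5 : Summable fun n : ℕ => (T ^ q) (u (3 * q * n)) := (T ^ q).summable s1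
      have s6 : Summable fun n : ℕ => (T ^ q) (w (3 * q * (n + 1))) := (T ^ q).summable s2
      rw [hy, map_add, (T ^ q).map_tsum s1, (T ^ q).map_tsum s2, map_add, (φ r).map_tsum s5,
        (φ r).map_tsum s6, ha, hb]
      congr 1
      · refine tsum_congr fun n => ?_
        rw [hTu]
      · refine tsum_congr fun n => ?_
        rw [show 3 * q * (n + 1) = (3 * q * n + 2 * q) + q by ring, hTw]
    rw [c1, c2] at hφq
    have t1 := tail_le a has _ inj2 q (fun n => by nlinarith)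
    have t2 := tail_le b hbs _ inj2 q (fun n => by nlinarith)
    have t3 := tail_le a has _ inj3 q (fun n => by nlinarith)
    have t4 := tail_le b hbs _ inj4 q (fun n => by nlinarith)
    have hfin : a 0 = (∑' n : ℕ, a (3 * q * n + q) + ∑' n : ℕ, b (3 * q * n + 2 * q)) -
        (∑' n : ℕ, a (3 * q * (n + 1)) + ∑' n : ℕ, b (3 * q * (n + 1))) := by linarith
    rw [hfin]
    refine (abs_sub _ _).trans ?_
    have u1 := abs_add_le (∑' n : ℕ, a (3 * q * n + q)) (∑' n : ℕ, b (3 * q * n + 2 * q))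
    have u2 := abs_add_le (∑' n : ℕ, a (3 * q * (n + 1))) (∑' n : ℕ, b (3 * q * (n + 1)))
    linarith
  have hlim4 : Tendsto (fun m : ℕ => 4 ^ m) atTop atTop :=
    tendsto_pow_atTop_atTop_of_one_lt (by norm_num)
  have l1 := (tendsto_sum_nat_add (fun n => |a n|)).comp hlim4
  have l2 := (tendsto_sum_nat_add (fun n => |b n|)).comp hlim4
  have l3 := (l1.const_mul 2).add (l2.const_mul 2)
  rw [mul_zero, add_zero] at l3
  have h0 : |a 0| ≤ 0 := ge_of_tendsto l3 (Eventually.of_forall fun m => hest m)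
  have h00 : a 0 = 0 := abs_nonpos_iff.1 h0
  rw [ha] at h00
  exact h00

lemma zero_X : ∀ (u w : ℕ → X), Summable u → Summable w → u 0 = w 0 →
    (∀ k n, (T ^ k) (u n) = u (n + k)) → (∀ k n, (T ^ k) (w (n + k)) = w n) → ∀ (r : ℕ),
    φ r (u 0) = 0 := by
  have h1 := @zero_abstract X _ _ _ T φ φ_T_pow
  have h2 := h1 (fun (f : X) m hper s => period_three (f : E) f.2 m hper s)
  intro u w hu hw
  exact h2 u w hu hw

theorem no_fhcc : ¬ ∃ X₀ : Set X, Dense X₀ ∧ ∃ S : X → X, (∀ x ∈ X₀, S x ∈ X₀) ∧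
    ∀ x ∈ X₀, Summable (fun n : ℕ => (T ^ n) x) ∧
      Summable (fun n : ℕ => S^[n] x) ∧ T (S x) = x := by
  rintro ⟨X₀, hd, S, hS, h⟩
  -- backward orbits
  have hit : ∀ x ∈ X₀, ∀ n, S^[n] x ∈ X₀ := by
    intro x hx n
    induction n with
    | zero => exact hx
    | succ n ih => rw [Function.iterate_succ_apply']; exact hS _ ih
  have hTS1 : ∀ x ∈ X₀, ∀ n, T (S^[n + 1] x) = S^[n] x := by
    intro x hx n
    rw [Function.iterate_succ_apply']
    exact (h _ (hit x hx n)).2.2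
  have hTS : ∀ x ∈ X₀, ∀ k n, (T ^ k) (S^[n + k] x) = S^[n] x := by
    intro x hx k
    induction k with
    | zero => intro n; rfl
    | succ k ih =>
      intro n
      rw [pow_succ]
      change (T ^ k) (T (S^[n + (k + 1)] x)) = _
      rw [← add_assoc, hTS1 x hx, ih]
  have key : ∀ x ∈ X₀, ∀ r, φ r x = 0 := by
    intro x hx r
    obtain ⟨h1, h2, -⟩ := h x hx
    have h3 := zero_X (fun n => (T ^ n) x) (fun n => S^[n] x) h1 h2 (by simp) (by
      intro k n
      rw [add_comm n k, pow_add]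
      rfl) (by
      intro k n
      exact hTS x hx k n) r
    simpa using h3
  -- contradiction
  have hall : ∀ f : X, φ 0 f = 0 := by
    have hcl : IsClosed {f : X | φ 0 f = 0} := isClosed_eq (φ 0).continuous continuous_const
    intro f
    exact (hcl.closure_subset_iff.2 fun x hx => key x hx 0) (hd f)
  have hne : Nice (fun m => if m = 0 then (1 : ℝ) else 0) := nice_fin _ 1 fun m hm => by
    rw [if_neg (by omega)]
  have h1 := hall (el _ hne)
  rw [φ_apply, cd_jf 0 _ _ fun a => el_apply _ hne a] at h1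
  simp at h1

/-- separability -/
instance : TopologicalSpace.SeparableSpace X := by
  refine ⟨Set.range (fun n : ℕ => (T ^ n) (el p nice_p)), Set.countable_range _, ?_⟩
  rw [dense_iff_inter_open]
  intro U hU hne
  obtain ⟨δ, hδ, N₀, hN⟩ := fhc U hU hne
  have h1 := hN (N₀ + 1) (by omega)
  have h2 : 0 < (Nat.card {n : ℕ // n < N₀ + 1 ∧ (T ^ n) (el p nice_p) ∈ U} : ℝ) :=
    lt_of_lt_of_le (by positivity) h1
  have h3 : 0 < Nat.card {n : ℕ // n < N₀ + 1 ∧ (T ^ n) (el p nice_p) ∈ U} := by exact_mod_cast h2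
  obtain ⟨⟨n, hn⟩⟩ := (Nat.card_pos_iff.1 h3).1
  exact ⟨(T ^ n) (el p nice_p), hn.2, ⟨n, rfl⟩⟩

theorem dense_orbit : Dense (Set.range (fun n : ℕ => (T ^ n) (el p nice_p))) := by
  rw [dense_iff_inter_open]
  intro U hU hne
  obtain ⟨δ, hδ, N₀, hN⟩ := fhc U hU hne
  have h1 := hN (N₀ + 1) (by omega)
  have h2 : 0 < (Nat.card {n : ℕ // n < N₀ + 1 ∧ (T ^ n) (el p nice_p) ∈ U} : ℝ) :=
    lt_of_lt_of_le (by positivity) h1
  have h3 : 0 < Nat.card {n : ℕ // n < N₀ + 1 ∧ (T ^ n) (el p nice_p) ∈ U} := by exact_mod_cast h2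
  obtain ⟨⟨n, hn⟩⟩ := (Nat.card_pos_iff.1 h3).1
  exact ⟨(T ^ n) (el p nice_p), hn.2, ⟨n, rfl⟩⟩

end Pool.Agent.W682.MX
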